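import Pool.Agent.Lib.MP_0cb87d_ag.HK.Statement

/-!
Definitions used by the integral statement on L-equivalent hyperkähler manifolds.
-/

namespace Pool.Agent.Lib.MP0cb87d.LEq

open TensorProduct

namespace Hyperkahler

variable {n : ℕ} {N : GradedHodgeLattice} (h : Hyperkahler n N)

/-- The discriminant group of `H²` with the form `q` is cyclic: every functional on `H²` is the
sum of `q (x, ·)` for some `x` in `H²` and of a multiple of a fixed functional. -/
def IsCyclic : Prop :=
  ∃ l₀ : N.V →+ ℤ, ∀ l : N.V →+ ℤ, ∃ x ∈ N.deg 1, ∃ k : ℤ, ∀ y ∈ N.deg 1,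
    l y = h.q x y + k * l₀ y

/-- Some Hodge endomorphism of the transcendental lattice acts on the part of type `2` as
multiplication by `c`. -/
def IsMultiplier (c : ℂ) : Prop :=
  ∃ f : h.T →+ h.T, Hyperkahler.IsHodge f ∧ ∀ x, h.OfType 2 x → extend f x = c • x

variable {h} in
theorem IsMultiplier.mul {a b : ℂ} (ha : IsMultiplier h a) (hb : IsMultiplier h b) :
    IsMultiplier h (a * b) := by
  obtain ⟨f, hf, hfa⟩ := ha
  obtain ⟨g, hg, hgb⟩ := hb
  refine ⟨f.comp g, fun k x hx => ?_, fun x hx => ?_⟩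
  · rw [extend_comp]
    exact hf k _ (hg k x hx)
  · rw [extend_comp, hfa _ (hg 2 x hx), hgb x hx, smul_smul]

theorem IsMultiplier.one : IsMultiplier h 1 :=
  ⟨AddMonoidHom.id _, fun k x hx => by rw [extend_id]; exact hx,
    fun x _ => by rw [extend_id, one_smul]⟩

variable {h} in
theorem IsMultiplier.add {a b : ℂ} (ha : IsMultiplier h a) (hb : IsMultiplier h b) :
    IsMultiplier h (a + b) := by
  obtain ⟨f, hf, hfa⟩ := ha
  obtain ⟨g, hg, hgb⟩ := hb
  refine ⟨f + g, fun k x hx => ?_, fun x hx => ?_⟩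
  · rw [extend_add, OfType, extend_map_add]
    exact add_mem (hf k x hx) (hg k x hx)
  · rw [extend_add, hfa x hx, hgb x hx, add_smul]

theorem IsMultiplier.zero : IsMultiplier h 0 :=
  ⟨0, fun k x _ => by rw [extend_zero, OfType, extend_map_zero]; exact zero_mem _,
    fun x _ => by rw [extend_zero, zero_smul]⟩

variable {h} in
theorem IsMultiplier.neg {a : ℂ} (ha : IsMultiplier h a) : IsMultiplier h (-a) := by
  obtain ⟨f, hf, hfa⟩ := ha
  refine ⟨-f, fun k x hx => ?_, fun x hx => ?_⟩
  · rw [extend_neg, OfType, extend_map_neg]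
    exact neg_mem (hf k x hx)
  · rw [extend_neg, hfa x hx, neg_smul]

/-- The ring of Hodge endomorphisms of the transcendental lattice, as a ring of complex
numbers. -/
def multipliers : Subring ℂ where
  carrier := {c | IsMultiplier h c}
  mul_mem' := IsMultiplier.mul
  one_mem' := IsMultiplier.one h
  add_mem' := IsMultiplier.add
  zero_mem' := IsMultiplier.zero h
  neg_mem' := IsMultiplier.neg

variable {n' : ℕ} {N' : GradedHodgeLattice} (h' : Hyperkahler n' N')

/-- The transcendental lattices with the forms `q` are Hodge isometric. -/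
def Isometric : Prop :=
  ∃ e : h.T ≃+ h'.T, Hyperkahler.IsHodge e.toAddMonoidHom ∧
    Hyperkahler.IsHodge e.symm.toAddMonoidHom ∧ ∀ x y, h'.qT (e x) (e y) = h.qT x y

end Hyperkahler

end Pool.Agent.Lib.MP0cb87d.LEq
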