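import Pool.Agent.Lib.MP_0cb87d_ag.HKI.Stmts
import Pool.Agent.Lib.MP_0cb87d_ag.HKI.Statement
import Pool.Agent.Lib.MP_0cb87d_ag.HK.Bridge

/-! The integral theorem on hyperkähler manifolds in terms of the definitions of
`HKI.Statement`. -/

namespace Pool.Agent.Lib.MP0cb87d.LEq

open TensorProduct

variable {n : ℕ} {N : GradedHodgeLattice} (h : Hyperkahler n N)

theorem cyclic_hk (hc : h.IsCyclic) : (hk h).Cyclic := by
  obtain ⟨l₀, hl⟩ := hc
  refine ⟨l₀.toIntLinearMap, fun l => ?_⟩
  obtain ⟨x, hx, k, hk⟩ := hl l.toAddMonoidHom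
  exact ⟨x, hx, k, hk⟩

theorem tEquiv_symm_tEquiv (x : Cx h.T) : extend (tEquiv h).symm.toAddMonoidHom
    (extend (tEquiv h).toAddMonoidHom x) = x := extend_symm (tEquiv h) x

theorem tEquiv_tEquiv_symm (x : Cx (hk h).trans) : extend (tEquiv h).toAddMonoidHom
    (extend (tEquiv h).symm.toAddMonoidHom x) = x := extend_symm (tEquiv h).symm x

theorem ofType_iff' (k : ℤ) (x : Cx h.T) :
    h.OfType k x ↔ inclS (hk h).trans (extend (tEquiv h).toAddMonoidHom x) ∈ (glat N).comp k :=
  ofType_iff h k x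

theorem ofType_symm (k : ℤ) (x : Cx (hk h).trans)
    (hx : inclS (hk h).trans x ∈ (glat N).comp k) :
    h.OfType k (extend (tEquiv h).symm.toAddMonoidHom x) := by
  rw [ofType_iff', tEquiv_tEquiv_symm]
  exact hx

theorem extend_smul {V W : Type} [AddCommGroup V] [AddCommGroup W] (f : V →+ W) (c : ℂ)
    (x : Cx V) : extend f (c • x) = c • extend f x :=
  map_smul (f.toIntLinearMap.baseChange ℂ) c x

theorem multS_eq (σ : ℂ ⊗[ℤ] (hk h).trans)
    (hσ : Source (glat N).toHodgeLattice (hk h).trans (hk h).qT 2 σ) :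
    multS (glat N).toHodgeLattice (hk h).trans σ = h.multipliers := by
  ext c
  constructor
  · rintro ⟨f, hf, hfc⟩
    refine ⟨((tEquiv h).symm.toAddMonoidHom.comp f.toAddMonoidHom).comp
      (tEquiv h).toAddMonoidHom, fun k x hx => ?_, fun x hx => ?_⟩
    · rw [extend_comp, extend_comp]
      exact ofType_symm h k _ (hf k _ ((ofType_iff' h k x).1 hx))
    · obtain ⟨d, hd⟩ := hσ.line _ ((ofType_iff' h 2 x).1 hx)
      have h1 : extend f.toAddMonoidHom (extend (tEquiv h).toAddMonoidHom x) =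
          c • extend (tEquiv h).toAddMonoidHom x := by
        rw [hd]
        change f.baseChange ℂ (d • σ) = c • d • σ
        rw [map_smul, hfc, smul_comm]
      rw [extend_comp, extend_comp, h1, extend_smul, tEquiv_symm_tEquiv]
  · rintro ⟨f, hf, hfc⟩
    refine ⟨(((tEquiv h).toAddMonoidHom.comp f).comp
      (tEquiv h).symm.toAddMonoidHom).toIntLinearMap, fun k x hx => ?_, ?_⟩
    · change inclS (hk h).trans (extend (((tEquiv h).toAddMonoidHom.comp f).comp
        (tEquiv h).symm.toAddMonoidHom) x) ∈ (glat N).comp k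
      rw [extend_comp, extend_comp]
      exact (ofType_iff' h k _).1 (hf k _ (ofType_symm h k x hx))
    · change extend (((tEquiv h).toAddMonoidHom.comp f).comp
        (tEquiv h).symm.toAddMonoidHom) σ = c • σ
      rw [extend_comp, extend_comp, hfc _ (ofType_symm h 2 σ hσ.mem), extend_smul,
        tEquiv_tEquiv_symm]
      rfl

theorem isom_hk {n' : ℕ} {N' : GradedHodgeLattice} (h' : Hyperkahler n' N')
    (hh : IntIsometric (hk h) (hk h')) : Hyperkahler.Isometric h h' := by
  obtain ⟨e, h1, h2, h3⟩ := hh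
  refine ⟨((tEquiv h).trans e.toAddEquiv).trans (tEquiv h').symm, fun k x hx => ?_,
    fun k x hx => ?_, fun x y => h3 (tEquiv h x) (tEquiv h y)⟩
  · change h'.OfType k (extend (((tEquiv h').symm.toAddMonoidHom.comp
      e.toLinearMap.toAddMonoidHom).comp (tEquiv h).toAddMonoidHom) x)
    rw [extend_comp, extend_comp]
    exact ofType_symm h' k _ (h1 k _ ((ofType_iff' h k x).1 hx))
  · change h.OfType k (extend (((tEquiv h).symm.toAddMonoidHom.comp
      e.symm.toLinearMap.toAddMonoidHom).comp (tEquiv h').toAddMonoidHom) x)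
    rw [extend_comp, extend_comp]
    exact ofType_symm h k _ (h2 k _ ((ofType_iff' h' k x).1 hx))

theorem integralHK (H : HKIntStatement) (C : GradedEvenCohomology) (X Y : C.Var) (n : ℕ)
    (hX : Hyperkahler n (C.H X)) (hY : Hyperkahler n (C.H Y)) (h : C.LEquivalent X Y)
    (hc : hX.c = hY.c) (cX : hX.IsCyclic) (cY : hY.IsCyclic)
    (hint : IsIntegrallyClosed hX.multipliers)
    (hreal : ∀ c ∈ hX.multipliers, starRingEnd ℂ c = c) (hn : Odd n ∨ hX.multipliers = ⊥) :
    Hyperkahler.Isometric hX hY := by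
  obtain ⟨σ, hσ, -⟩ := stN1 n _ (hk hX)
  have hm := multS_eq hX σ hσ
  refine isom_hk hX hY (H (gthy C) X Y n (hk hX) (hk hY) (glequivalent C X Y h) hc
    (cyclic_hk hX cX) (cyclic_hk hY cY) σ hσ ?_ ?_ ?_)
  · change IsIntegrallyClosed (multS (glat (C.H X)).toHodgeLattice (hk hX).trans σ)
    rw [hm]
    exact hint
  · intro c hc'
    exact hreal c (hm ▸ hc')
  · rcases hn with hn | hn
    · exact Or.inl hn
    · exact Or.inr (hm.trans hn)

end Pool.Agent.Lib.MP0cb87d.LEq
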