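import Pool.Agent.Lib.MP_0cb87d_ag.HKI.Stmts
import Pool.Agent.Lib.MP_0cb87d_ag.HK.M1
import Pool.Agent.Lib.MP_0cb87d_ag.F6

/-! Module P1: the additive measure, the rank of the composition pairing modulo a maximal
ideal. -/

set_option autoImplicit false

namespace Pool.Agent.Lib.MP0cb87d

open TensorProduct

namespace P1aux

open M1aux

section linalg

variable {K : Type} [Field K]

/-- the span of the functionals given by a pairing -/
def sp {A B : Type} [AddCommGroup A] (v : A →+ (B → K)) : Submodule K (B → K) :=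
  Submodule.span K (Set.range v)

lemma sp_finite {A B : Type} [AddCommGroup A] [Module.Finite ℤ A] (v : A →+ (B → K)) :
    Module.Finite K (sp v) := by
  obtain ⟨s, hs⟩ := (Module.Finite.fg_top : (⊤ : Submodule ℤ A).FG)
  have h : sp v = Submodule.span K (v '' s) := by
    apply le_antisymm
    · refine Submodule.span_le.2 ?_
      rintro _ ⟨x, rfl⟩
      have hx : x ∈ Submodule.span ℤ (s : Set A) := by rw [hs]; trivial
      induction hx using Submodule.span_induction with
      | mem x hx => exact Submodule.subset_span ⟨x, hx, rfl⟩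
      | zero => rw [map_zero]; exact zero_mem _
      | add x y _ _ hx hy => rw [map_add]; exact add_mem hx hy
      | smul n x _ hx => rw [map_zsmul]; exact zsmul_mem hx n
    · exact Submodule.span_mono (Set.image_subset_range _ _)
  rw [h]
  exact FiniteDimensional.span_of_finite K ((s.finite_toSet).image v)

/-- the span vanishes at zero -/
lemma sp_zero {A B : Type} [AddCommGroup A] [Zero B] (v : A →+ (B → K)) (h : ∀ x, v x 0 = 0)
    (w : B → K) (hw : w ∈ sp v) : w 0 = 0 := by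
  have h1 : sp v ≤ LinearMap.ker (LinearMap.proj (R := K) (φ := fun _ : B => K) 0) := by
    refine Submodule.span_le.2 ?_
    rintro _ ⟨x, rfl⟩
    exact h x
  exact h1 hw

/-- the rank of an orthogonal sum of pairings -/
lemma rank_add {m : ℕ} {A A₀ B B₀ : Type} {A' B' : Fin m → Type} [AddCommGroup A]
    [AddCommGroup A₀] [∀ i, AddCommGroup (A' i)] [Zero B₀] [∀ i, Zero (B' i)]
    [Module.Finite ℤ A₀] [∀ i, Module.Finite ℤ (A' i)]
    (v : A →+ (B → K)) (v₀ : A₀ →+ (B₀ → K)) (v' : ∀ i, A' i →+ (B' i → K))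
    (h₀ : ∀ x, v₀ x 0 = 0) (h' : ∀ i x, v' i x 0 = 0)
    (α₀ : A → A₀) (α' : ∀ i, A → A' i) (β₀ : B → B₀) (β' : ∀ i, B → B' i)
    (hv : ∀ f g, v f g = v₀ (α₀ f) (β₀ g) + ∑ i, v' i (α' i f) (β' i g))
    (ha₀ : ∀ x, ∃ f, α₀ f = x ∧ ∀ i, α' i f = 0)
    (ha' : ∀ i x, ∃ f, α₀ f = 0 ∧ α' i f = x ∧ ∀ j, j ≠ i → α' j f = 0)
    (hb₀ : ∀ x, ∃ g, β₀ g = x ∧ ∀ i, β' i g = 0)
    (hb' : ∀ i x, ∃ g, β₀ g = 0 ∧ β' i g = x ∧ ∀ j, j ≠ i → β' j g = 0) :
    Module.finrank K (sp v) =
      Module.finrank K (sp v₀) + ∑ i, Module.finrank K (sp (v' i)) := by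
  have := sp_finite v₀
  have := fun i => sp_finite (v' i)
  let Φ : (sp v₀ × (∀ i, sp (v' i))) →ₗ[K] (B → K) :=
    LinearMap.coprod ((LinearMap.funLeft K K β₀) ∘ₗ (sp v₀).subtype)
      (∑ i, (LinearMap.funLeft K K (β' i)) ∘ₗ (sp (v' i)).subtype ∘ₗ LinearMap.proj i)
  have hΦ : ∀ z g, Φ z g = (z.1 : B₀ → K) (β₀ g) + ∑ i, (z.2 i : B' i → K) (β' i g) := by
    intro z g
    simp [Φ, LinearMap.funLeft_apply]
  have hinj : Function.Injective Φ := by
    rw [← LinearMap.ker_eq_bot, LinearMap.ker_eq_bot']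
    intro z hz
    have hz' : ∀ g, (z.1 : B₀ → K) (β₀ g) + ∑ i, (z.2 i : B' i → K) (β' i g) = 0 := by
      intro g
      rw [← hΦ, hz]
      rfl
    have z0 := sp_zero v₀ h₀ _ z.1.2
    have zi := fun i => sp_zero (v' i) (h' i) _ (z.2 i).2
    refine Prod.ext (Subtype.ext (funext fun x => ?_))
      (funext fun i => Subtype.ext (funext fun x => ?_))
    · obtain ⟨g, hg, hg'⟩ := hb₀ x
      have h1 := hz' g
      rw [hg, Finset.sum_eq_zero (fun i _ => by rw [hg' i, zi i]), add_zero] at h1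
      exact h1
    · obtain ⟨g, hg, hgi, hg'⟩ := hb' i x
      have h1 := hz' g
      rw [hg, z0, zero_add, Finset.sum_eq_single i (fun j _ hj => by rw [hg' j hj, zi j])
        (fun h => absurd (Finset.mem_univ _) h), hgi] at h1
      exact h1
  have hr : LinearMap.range Φ = sp v := by
    apply le_antisymm
    · rintro _ ⟨z, rfl⟩
      have h1 : ∀ w ∈ sp v₀, (LinearMap.funLeft K K β₀) w ∈ sp v := by
        intro w hw
        have : sp v₀ ≤ (sp v).comap (LinearMap.funLeft K K β₀) := by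
          refine Submodule.span_le.2 ?_
          rintro _ ⟨x, rfl⟩
          obtain ⟨f, hf, hf'⟩ := ha₀ x
          refine Submodule.subset_span ⟨f, funext fun g => ?_⟩
          rw [hv, hf, Finset.sum_eq_zero (fun i _ => by rw [hf' i, map_zero, Pi.zero_apply]),
            add_zero]
          rfl
        exact this hw
      have h2 : ∀ i, ∀ w ∈ sp (v' i), (LinearMap.funLeft K K (β' i)) w ∈ sp v := by
        intro i w hw
        have : sp (v' i) ≤ (sp v).comap (LinearMap.funLeft K K (β' i)) := by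
          refine Submodule.span_le.2 ?_
          rintro _ ⟨x, rfl⟩
          obtain ⟨f, hf, hfi, hf'⟩ := ha' i x
          refine Submodule.subset_span ⟨f, funext fun g => ?_⟩
          rw [hv, hf, map_zero, Pi.zero_apply, zero_add, Finset.sum_eq_single i
            (fun j _ hj => by rw [hf' j hj, map_zero, Pi.zero_apply])
            (fun h => absurd (Finset.mem_univ _) h), hfi]
          rfl
        exact this hw
      have h3 : Φ z = (LinearMap.funLeft K K β₀) (z.1 : B₀ → K) +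
          ∑ i, (LinearMap.funLeft K K (β' i)) (z.2 i : B' i → K) := by
        funext g
        rw [hΦ, Pi.add_apply, Finset.sum_apply]
        rfl
      rw [h3]
      exact add_mem (h1 _ z.1.2) (sum_mem fun i _ => h2 i _ (z.2 i).2)
    · refine Submodule.span_le.2 ?_
      rintro _ ⟨f, rfl⟩
      refine ⟨(⟨v₀ (α₀ f), Submodule.subset_span ⟨_, rfl⟩⟩,
        fun i => ⟨v' i (α' i f), Submodule.subset_span ⟨_, rfl⟩⟩), funext fun g => ?_⟩
      rw [hΦ, hv]
  have h1 := (LinearEquiv.ofInjective Φ hinj).finrank_eq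
  rw [hr, Module.finrank_prod, Module.finrank_pi_fintype] at h1
  exact h1.symm

end linalg

section

variable {X : HodgeLattice} {S : Submodule ℤ X.V} {σ : ℂ ⊗[ℤ] S}

/-- the group of Hodge maps to the part of degree `l` -/
def At (X : HodgeLattice) (S : Submodule ℤ X.V) (l : ℤ) (N : GradedHodgeLattice) :
    Submodule ℤ (S →ₗ[ℤ] N.V) where
  carrier := {f | HomTo X S l N f}
  add_mem' := by
    rintro f g ⟨hf, hf'⟩ ⟨hg, hg'⟩
    refine ⟨fun k x hx => ?_, fun t => ?_⟩
    · rw [LinearMap.baseChange_add, LinearMap.add_apply]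
      exact add_mem (hf k x hx) (hg k x hx)
    · rw [LinearMap.add_apply]
      exact add_mem (hf' t) (hg' t)
  zero_mem' := ⟨fun k x _ => by simp, fun t => by simp⟩
  smul_mem' := by
    rintro n f ⟨hf, hf'⟩
    refine ⟨fun k x hx => ?_, fun t => ?_⟩
    · rw [LinearMap.baseChange_smul, LinearMap.smul_apply]
      exact zsmul_mem (hf k x hx) n
    · rw [LinearMap.smul_apply]
      exact Submodule.smul_mem _ _ (hf' t)

/-- the group of Hodge maps from the part of degree `l` -/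
def Bf (X : HodgeLattice) (S : Submodule ℤ X.V) (l : ℤ) (N : GradedHodgeLattice) :
    Submodule ℤ (N.V →ₗ[ℤ] S) where
  carrier := {f | HomFrom X S l N f}
  add_mem' := by
    rintro f g ⟨hf, hf'⟩ ⟨hg, hg'⟩
    refine ⟨fun k x hx => ?_, fun j hj t ht => ?_⟩
    · rw [LinearMap.baseChange_add, LinearMap.add_apply, map_add]
      exact add_mem (hf k x hx) (hg k x hx)
    · rw [LinearMap.add_apply, hf' j hj t ht, hg' j hj t ht, add_zero]
  zero_mem' := ⟨fun k x _ => by simp, fun j _ t _ => by simp⟩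
  smul_mem' := by
    rintro n f ⟨hf, hf'⟩
    refine ⟨fun k x hx => ?_, fun j hj t ht => ?_⟩
    · rw [LinearMap.baseChange_smul, LinearMap.smul_apply, map_zsmul]
      exact zsmul_mem (hf k x hx) n
    · rw [LinearMap.smul_apply, hf' j hj t ht, smul_zero]

instance finA (X : HodgeLattice) (S : Submodule ℤ X.V) (l : ℤ) (N : GradedHodgeLattice) :
    Module.Finite ℤ (At X S l N) := by
  infer_instance

/-- the group of Hodge endomorphisms -/
def En (X : HodgeLattice) (S : Submodule ℤ X.V) : AddSubgroup (S →ₗ[ℤ] S) where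
  carrier := {e | IsHodgeEnd X S e}
  add_mem' := by
    intro f g hf hg k x hx
    rw [LinearMap.baseChange_add, LinearMap.add_apply, map_add]
    exact add_mem (hf k x hx) (hg k x hx)
  zero_mem' := fun k x _ => by simp
  neg_mem' := by
    intro f hf k x hx
    rw [LinearMap.baseChange_neg, LinearMap.neg_apply, map_neg]
    exact neg_mem (hf k x hx)

/-- the data -/
structure Dat (X : HodgeLattice) (S : Submodule ℤ X.V) (σ : ℂ ⊗[ℤ] S)
    (lam : ℂ ⊗[ℤ] S →ₗ[ℂ] ℂ) : Prop where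
  one : lam σ = 1
  mem : inclS S σ ∈ X.comp 2
  line : ∀ z, inclS S z ∈ X.comp 2 → ∃ c : ℂ, z = c • σ

variable {lam : ℂ ⊗[ℤ] S →ₗ[ℂ] ℂ}

lemma Dat.eq (hd : Dat X S σ lam) {e : S →ₗ[ℤ] S} (he : IsHodgeEnd X S e) :
    e.baseChange ℂ σ = lam (e.baseChange ℂ σ) • σ := by
  obtain ⟨c, hc⟩ := hd.line _ (he 2 σ hd.mem)
  rw [hc, map_smul, hd.one, smul_eq_mul, mul_one]

lemma Dat.memS (hd : Dat X S σ lam) {e : S →ₗ[ℤ] S} (he : IsHodgeEnd X S e) :
    lam (e.baseChange ℂ σ) ∈ multS X S σ :=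
  ⟨e, he, hd.eq he⟩

variable {K : Type} [Field K]

/-- the multiplier of a Hodge endomorphism, in a field -/
noncomputable def cE (hd : Dat X S σ lam) (π : multS X S σ →+* K) : En X S →+ K :=
  π.toAddMonoidHom.comp
    { toFun := fun e => ⟨lam ((e : S →ₗ[ℤ] S).baseChange ℂ σ), hd.memS e.2⟩
      map_zero' := Subtype.ext (by simp)
      map_add' := fun e e' => Subtype.ext (by
        simp [LinearMap.baseChange_add, LinearMap.add_apply, map_add]) }

lemma comp_mem {l : ℤ} {N : GradedHodgeLattice} (f : At X S l N) (g : Bf X S l N) :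
    (g : N.V →ₗ[ℤ] S) ∘ₗ (f : S →ₗ[ℤ] N.V) ∈ En X S := by
  intro k x hx
  rw [LinearMap.baseChange_comp]
  exact g.2.1 k _ (f.2.1 k x hx)

/-- the composition pairing -/
noncomputable def vv (hd : Dat X S σ lam) (π : multS X S σ →+* K) (l : ℤ)
    (N : GradedHodgeLattice) : At X S l N →+ (Bf X S l N → K) where
  toFun := fun f g => cE hd π ⟨_, comp_mem f g⟩
  map_zero' := by
    funext g
    rw [Pi.zero_apply, ← map_zero (cE hd π)]
    exact congrArg _ (Subtype.ext (LinearMap.comp_zero _))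
  map_add' := fun f f' => by
    funext g
    rw [Pi.add_apply, ← map_add (cE hd π)]
    exact congrArg _ (Subtype.ext (LinearMap.comp_add _ _ _))

lemma vv_apply (hd : Dat X S σ lam) (π : multS X S σ →+* K) (l : ℤ)
    (N : GradedHodgeLattice) (f : At X S l N) (g : Bf X S l N) :
    vv hd π l N f g = cE hd π ⟨_, comp_mem f g⟩ := rfl

lemma vv_zero (hd : Dat X S σ lam) (π : multS X S σ →+* K) (l : ℤ)
    (N : GradedHodgeLattice) (f : At X S l N) : vv hd π l N f 0 = 0 := by
  rw [vv_apply, ← map_zero (cE hd π)]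
  exact congrArg _ (Subtype.ext (LinearMap.zero_comp _))

/-- the rank of the composition pairing -/
noncomputable def rk (hd : Dat X S σ lam) (π : multS X S σ →+* K) (l : ℤ)
    (N : GradedHodgeLattice) : ℤ :=
  Module.finrank K (sp (vv hd π l N))

/-- The ranks are additive. -/
lemma rk_add (hc : StC1) (hd : Dat X S σ lam) (π : multS X S σ →+* K) (m : ℕ)
    (A N M : GradedHodgeLattice) (a : A.V →ₗ[ℤ] M.V)
    (b : Fin m → N.V →ₗ[ℤ] M.V) (d : Fin m → ℤ) (ha : IsHodgeDeg 0 A M a)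
    (hb : ∀ i, IsHodgeDeg (d i) N M (b i))
    (hbij : Function.Bijective (fun z : A.V × (Fin m → N.V) => a z.1 + ∑ i, b i (z.2 i)))
    (l : ℤ) : rk hd π l M = rk hd π l A + ∑ i, rk hd π (l - d i) N := by
  obtain ⟨p, r, hp, hr, pa, pb, ra, rb, hs⟩ := hc m A.toHodgeLattice N.toHodgeLattice
    M.toHodgeLattice a b ha.1 (fun i => (hb i).1) hbij
  -- degrees
  have key : ∀ l, ∀ x ∈ M.deg l, ∀ j, j ≠ l →
      dg A j (p x) = 0 ∧ ∀ i, dg N (j - d i) (r i x) = 0 := by
    intro l x hx j hj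
    have h1 : dg M j x = 0 := by rw [dg_mem hx, if_neg (Ne.symm hj)]
    have h2 : a (dg A j (p x)) + ∑ i, b i (dg N (j - d i) (r i x)) = 0 := by
      rw [← h1]
      conv_rhs => rw [hs x]
      rw [map_add, map_sum]
      congr 1
      · have := dg_comm ha.2 j (p x)
        rw [add_zero] at this
        exact this.symm
      · refine Finset.sum_congr rfl fun i _ => ?_
        have := dg_comm (hb i).2 (j - d i) (r i x)
        rw [sub_add_cancel] at this
        exact this.symm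
    constructor
    · have h3 := congrArg p h2
      rw [map_add, map_sum, pa, map_zero, Finset.sum_eq_zero (fun i _ => pb i _), add_zero] at h3
      exact h3
    · intro i
      have h3 := congrArg (r i) h2
      rw [map_add, map_sum, ra, map_zero, zero_add] at h3
      simp only [rb] at h3
      simpa using h3
  have hpd : ∀ l, ∀ x ∈ M.deg l, p x ∈ A.deg l := fun l x hx =>
    mem_of_dg fun j hj => (key l x hx j hj).1
  have hrd : ∀ l i, ∀ x ∈ M.deg l, r i x ∈ N.deg (l - d i) := by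
    intro l i x hx
    refine mem_of_dg fun j hj => ?_
    have := (key l x hx (j + d i) (fun h => hj (by rw [← h]; ring))).2 i
    rwa [add_sub_cancel_right] at this
  have had : ∀ l, ∀ x ∈ A.deg l, a x ∈ M.deg l := by
    intro l x hx
    have := ha.2 l x hx
    rwa [add_zero] at this
  have hbd : ∀ i, ∀ x ∈ N.deg (l - d i), b i x ∈ M.deg l := by
    intro i x hx
    have := (hb i).2 _ x hx
    rwa [sub_add_cancel] at this
  -- the maps
  have mA : ∀ {N M : GradedHodgeLattice} {l l' : ℤ} (h : N.V →ₗ[ℤ] M.V),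
      IsHodge N.toHodgeLattice M.toHodgeLattice h → (∀ x ∈ N.deg l, h x ∈ M.deg l') →
      ∀ f : At X S l N, h ∘ₗ (f : S →ₗ[ℤ] N.V) ∈ At X S l' M := by
    intro N M l l' h h1 h2 f
    refine ⟨fun k x hx => ?_, fun t => h2 _ (f.2.2 t)⟩
    rw [LinearMap.baseChange_comp]
    exact h1 k _ (f.2.1 k x hx)
  have mB : ∀ {N M : GradedHodgeLattice} {l l' : ℤ} (h : M.V →ₗ[ℤ] N.V),
      IsHodge M.toHodgeLattice N.toHodgeLattice h →
      (∀ j, j ≠ l' → ∀ x ∈ M.deg j, ∃ j', j' ≠ l ∧ h x ∈ N.deg j') →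
      ∀ g : Bf X S l N, (g : N.V →ₗ[ℤ] S) ∘ₗ h ∈ Bf X S l' M := by
    intro N M l l' h h1 h2 g
    refine ⟨fun k x hx => ?_, fun j hj t ht => ?_⟩
    · rw [LinearMap.baseChange_comp]
      exact g.2.1 k _ (h1 k x hx)
    · obtain ⟨j', hj', hm⟩ := h2 j hj t ht
      exact g.2.2 j' hj' _ hm
  have mpA := mA (l := l) (l' := l) p hp (hpd l)
  have mrA := fun i => mA (l := l) (l' := l - d i) (r i) (hr i) (hrd l i)
  have maA := mA (l := l) (l' := l) a ha.1 (had l)
  have mbA := fun i => mA (l := l - d i) (l' := l) (b i) (hb i).1 (hbd i)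
  have maB := mB (l := l) (l' := l) a ha.1 (fun j hj x hx => ⟨j, hj, had j x hx⟩)
  have mbB := fun i => mB (l := l) (l' := l - d i) (b i) (hb i).1
    (fun j hj x hx => ⟨j + d i, fun h => hj (by rw [← h]; ring), (hb i).2 j x hx⟩)
  have mpB := mB (l := l) (l' := l) p hp (fun j hj x hx => ⟨j, hj, hpd j x hx⟩)
  have mrB := fun i => mB (l := l - d i) (l' := l) (r i) (hr i)
    (fun j hj x hx => ⟨j - d i, fun h => hj (by linarith), hrd j i x hx⟩)
  -- compositions
  have cpa : p ∘ₗ a = LinearMap.id := LinearMap.ext pa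
  have cpb : ∀ i, p ∘ₗ b i = 0 := fun i => LinearMap.ext (pb i)
  have cra : ∀ i, r i ∘ₗ a = 0 := fun i => LinearMap.ext (ra i)
  have crb : ∀ i, r i ∘ₗ b i = LinearMap.id := fun i => LinearMap.ext fun y => by
    rw [LinearMap.comp_apply, rb, if_pos rfl]; rfl
  have crb' : ∀ i j, i ≠ j → r i ∘ₗ b j = 0 := fun i j h => LinearMap.ext fun y => by
    rw [LinearMap.comp_apply, rb, if_neg h]; rfl
  have h := rank_add (K := K) (vv hd π l M) (vv hd π l A) (fun i => vv hd π (l - d i) N)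
    (fun f => vv_zero hd π l A f) (fun i f => vv_zero hd π (l - d i) N f)
    (fun f => ⟨_, mpA f⟩) (fun i f => ⟨_, mrA i f⟩) (fun g => ⟨_, maB g⟩)
    (fun i g => ⟨_, mbB i g⟩) ?_ ?_ ?_ ?_ ?_
  · unfold rk
    rw [h]
    push_cast
    rfl
  · intro f g
    simp only [vv_apply]
    rw [← map_sum (cE hd π), ← map_add (cE hd π)]
    congr 1
    apply Subtype.ext
    rw [AddSubgroup.coe_add, AddSubgroup.val_finsetSum]
    refine LinearMap.ext fun t => ?_
    simp only [LinearMap.add_apply, LinearMap.sum_apply, LinearMap.comp_apply]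
    conv_lhs => rw [hs ((f : S →ₗ[ℤ] M.V) t)]
    rw [map_add, map_sum]
  · intro x
    refine ⟨⟨_, maA x⟩, Subtype.ext ?_, fun i => Subtype.ext ?_⟩
    · show p ∘ₗ a ∘ₗ (x : S →ₗ[ℤ] A.V) = x
      rw [← LinearMap.comp_assoc, cpa, LinearMap.id_comp]
    · show r i ∘ₗ a ∘ₗ (x : S →ₗ[ℤ] A.V) = 0
      rw [← LinearMap.comp_assoc, cra, LinearMap.zero_comp]
  · intro i x
    refine ⟨⟨_, mbA i x⟩, Subtype.ext ?_, Subtype.ext ?_, fun j hj => Subtype.ext ?_⟩
    · show p ∘ₗ b i ∘ₗ (x : S →ₗ[ℤ] N.V) = 0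
      rw [← LinearMap.comp_assoc, cpb, LinearMap.zero_comp]
    · show r i ∘ₗ b i ∘ₗ (x : S →ₗ[ℤ] N.V) = x
      rw [← LinearMap.comp_assoc, crb, LinearMap.id_comp]
    · show r j ∘ₗ b i ∘ₗ (x : S →ₗ[ℤ] N.V) = 0
      rw [← LinearMap.comp_assoc, crb' j i hj, LinearMap.zero_comp]
  · intro x
    refine ⟨⟨_, mpB x⟩, Subtype.ext ?_, fun i => Subtype.ext ?_⟩
    · show ((x : A.V →ₗ[ℤ] S) ∘ₗ p) ∘ₗ a = x
      rw [LinearMap.comp_assoc, cpa, LinearMap.comp_id]
    · show ((x : A.V →ₗ[ℤ] S) ∘ₗ p) ∘ₗ b i = 0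
      rw [LinearMap.comp_assoc, cpb, LinearMap.comp_zero]
  · intro i x
    refine ⟨⟨_, mrB i x⟩, Subtype.ext ?_, Subtype.ext ?_, fun j hj => Subtype.ext ?_⟩
    · show ((x : N.V →ₗ[ℤ] S) ∘ₗ r i) ∘ₗ a = 0
      rw [LinearMap.comp_assoc, cra, LinearMap.comp_zero]
    · show ((x : N.V →ₗ[ℤ] S) ∘ₗ r i) ∘ₗ b i = x
      rw [LinearMap.comp_assoc, crb, LinearMap.comp_id]
    · show ((x : N.V →ₗ[ℤ] S) ∘ₗ r i) ∘ₗ b j = 0
      rw [LinearMap.comp_assoc, crb' i j (Ne.symm hj), LinearMap.comp_zero]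

lemma rk_union (hc : StC1) (hd : Dat X S σ lam) (π : multS X S σ →+* K)
    {A B M : GradedHodgeLattice} (h : GradedOrthSum A B M) (l : ℤ) :
    rk hd π l M = rk hd π l A + rk hd π l B := by
  obtain ⟨a, b, ha, hb, hbij, -, -, -⟩ := h
  have h1 : Function.Bijective (fun z : A.V × (Fin 1 → B.V) => a z.1 + ∑ i : Fin 1, b (z.2 i)) := by
    have : (fun z : A.V × (Fin 1 → B.V) => a z.1 + ∑ i : Fin 1, b (z.2 i)) =
        (fun z : A.V × B.V => a z.1 + b z.2) ∘
          (Prod.map id (Equiv.funUnique (Fin 1) B.V)) := by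
      funext z
      simp
    rw [this]
    exact hbij.comp (Function.bijective_id.prodMap (Equiv.bijective _))
  have h2 := rk_add hc hd π 1 A B M a (fun _ => b) (fun _ => 0) ha (fun _ => hb) h1 l
  rw [h2]
  simp

lemma rk_blowup (hc : StC1) (hd : Dat X S σ lam) (π : multS X S σ →+* K) {m : ℕ}
    {A N M : GradedHodgeLattice} (h : GradedBlowup m A N M) (l : ℤ) :
    rk hd π l M = rk hd π l A + ∑ i : Fin m, rk hd π (l - ((i : ℕ) + 1)) N := by
  obtain ⟨a, b, ha, hb, hbij, -, -, -, -⟩ := h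
  exact rk_add hc hd π m A N M a b (fun i => ((i : ℕ) + 1 : ℤ)) ha hb hbij l

lemma rk_bundle (hc : StC1) (hd : Dat X S σ lam) (π : multS X S σ →+* K) {m : ℕ}
    {N M : GradedHodgeLattice} (h : GradedBundle (m + 1) N M) (l : ℤ) :
    rk hd π l M = rk hd π l N + ∑ i : Fin m, rk hd π (l - ((i : ℕ) + 1)) N := by
  obtain ⟨b, hb, hbij, -, -⟩ := h
  have h0 : IsHodgeDeg 0 N M (b 0) := by
    have := hb 0
    simpa using this
  have h1 : ∀ i : Fin m, IsHodgeDeg (((i : ℕ) + 1 : ℤ)) N M (b i.succ) := by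
    intro i
    have := hb i.succ
    rw [Fin.val_succ] at this
    push_cast at this
    exact this
  refine rk_add hc hd π m N N M (b 0) (fun i => b i.succ) (fun i => ((i : ℕ) + 1 : ℤ)) h0 h1 ?_ l
  have h2 : (fun z : N.V × (Fin m → N.V) => b 0 z.1 + ∑ i, b i.succ (z.2 i)) =
      (fun z : Fin (m + 1) → N.V => ∑ i, b i (z i)) ∘ (Fin.consEquiv fun _ => N.V) := by
    funext z
    rw [Function.comp_apply, Fin.sum_univ_succ]
    simp [Fin.consEquiv]
  rw [h2]
  exact hbij.comp (Equiv.bijective _)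

/-- The rank is an invariant of L-equivalence. -/
lemma rk_eq (hc : StC1) (hd : Dat X S σ lam) (π : multS X S σ →+* K)
    (C : GradedEvenCohomology) (Y Y' : C.Var) (h : C.LEquivalent Y Y') (l₀ : ℤ) :
    rk hd π l₀ (C.H Y) = rk hd π l₀ (C.H Y') := by
  let μ : FreeAbelianGroup C.Var →+ (ℤ → ℤ) :=
    FreeAbelianGroup.lift fun Z l => rk hd π l (C.H Z)
  have hμ : ∀ Z, μ (FreeAbelianGroup.of Z) = fun l => rk hd π l (C.H Z) := fun Z =>
    FreeAbelianGroup.lift_apply_of _ Z
  have hrel : ∀ z ∈ C.relations, μ z = 0 := by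
    intro z hz
    have hle : C.relations ≤ μ.ker := by
      refine (AddSubgroup.closure_le _).2 ?_
      rintro w ((⟨Z, hZ, rfl⟩ | ⟨Z, Z', S, hS, rfl⟩) | ⟨Z, Z', m, B, E, hB, rfl⟩)
      · rw [SetLike.mem_coe, AddMonoidHom.mem_ker, hμ]
        have h1 : Subsingleton (C.H Z).V := C.empty_spec Z hZ
        funext l
        show rk hd π l (C.H Z) = 0
        unfold rk
        have h2 : sp (vv hd π l (C.H Z)) = ⊥ := by
          unfold sp
          rw [Submodule.span_eq_bot]
          rintro _ ⟨f, rfl⟩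
          have h3 : f = 0 := Subtype.ext (LinearMap.ext fun t => Subsingleton.elim _ _)
          rw [h3, map_zero]
        rw [h2, finrank_bot]
        rfl
      · rw [SetLike.mem_coe, AddMonoidHom.mem_ker, map_sub, map_add, hμ, hμ, hμ]
        funext l
        simp only [Pi.sub_apply, Pi.add_apply, Pi.zero_apply]
        rw [rk_union hc hd π (C.union_spec Z Z' S hS), sub_self]
      · rw [SetLike.mem_coe, AddMonoidHom.mem_ker, map_sub, map_sub, map_sub, hμ, hμ, hμ, hμ]
        obtain ⟨hbl, hbu⟩ := C.blowup_spec Z Z' m B E hB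
        funext l
        simp only [Pi.sub_apply, Pi.zero_apply]
        rw [rk_blowup hc hd π hbl, rk_bundle hc hd π hbu]
        ring
    exact AddMonoidHom.mem_ker.1 (hle hz)
  have hmul : ∀ z l, μ (C.mulL z) l = μ z (l - 1) := by
    intro z l
    let τ : (ℤ → ℤ) →+ (ℤ → ℤ) :=
      { toFun := fun g l => g (l - 1), map_zero' := rfl, map_add' := fun _ _ => rfl }
    have hcm : μ.comp C.mulL = τ.comp μ := by
      refine FreeAbelianGroup.lift_ext _ _ fun Z => ?_
      rw [AddMonoidHom.comp_apply, AddMonoidHom.comp_apply]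
      have h2 : C.mulL (FreeAbelianGroup.of Z) =
          FreeAbelianGroup.of (C.timesP1 Z) - FreeAbelianGroup.of Z :=
        FreeAbelianGroup.lift_apply_of _ Z
      rw [h2, map_sub, hμ, hμ]
      funext l
      show rk hd π l (C.H (C.timesP1 Z)) - rk hd π l (C.H Z) = rk hd π (l - 1) (C.H Z)
      rw [rk_bundle hc hd π (m := 1) (C.timesP1_spec Z)]
      simp
    exact congrFun (DFunLike.congr_fun hcm z) l
  have hiter : ∀ (j : ℕ) z l, μ ((C.mulL)^[j] z) l = μ z (l - j) := by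
    intro j
    induction j with
    | zero => intro z l; simp
    | succ j ih =>
      intro z l
      have h3 : l - (j : ℤ) - 1 = l - ((j + 1 : ℕ) : ℤ) := by
        push_cast
        ring
      rw [Function.iterate_succ_apply, ih, hmul, h3]
  obtain ⟨j, hj⟩ := h
  have h3 := congrFun (hrel _ hj) (l₀ + j)
  rw [hiter, map_sub, hμ, hμ] at h3
  simp only [add_sub_cancel_right, Pi.sub_apply, Pi.zero_apply] at h3
  linarith

end

/-- the projection to the part of degree `l` -/
noncomputable def pr (N : GradedHodgeLattice) (l : ℤ) : N.V →ₗ[ℤ] N.deg l :=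
  (DirectSum.component ℤ ℤ (fun k => N.deg k) l) ∘ₗ (D N).symm.toLinearMap

lemma pr_sub (N : GradedHodgeLattice) (l : ℤ) : (N.deg l).subtype ∘ₗ pr N l = dg N l := rfl

lemma pr_coe (N : GradedHodgeLattice) (l : ℤ) (x : N.V) : ((pr N l x : N.deg l) : N.V) = dg N l x :=
  rfl

lemma dg_baseChange {N : GradedHodgeLattice} {k l : ℤ} {x : ℂ ⊗[ℤ] N.V}
    (hx : x ∈ (N.deg k).baseChange ℂ) :
    (dg N l).baseChange ℂ x = if k = l then x else 0 := by
  rw [Submodule.baseChange_eq_span] at hx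
  induction hx using Submodule.span_induction with
  | mem x hx =>
    obtain ⟨y, hy, rfl⟩ := hx
    simp only [TensorProduct.mk_apply, LinearMap.baseChange_tmul]
    rw [dg_mem hy]
    split_ifs <;> simp
  | zero => simp
  | add x y _ _ hx hy =>
    rw [map_add, hx, hy]
    split_ifs <;> simp
  | smul n x _ hx =>
    rw [map_smul, hx]
    split_ifs <;> simp

lemma dg_hodge (N : GradedHodgeLattice) (l k : ℤ) (x : ℂ ⊗[ℤ] N.V) (hx : x ∈ N.comp k) :
    (dg N l).baseChange ℂ x ∈ N.comp k := by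
  obtain ⟨y, hy, rfl⟩ := N.comp_graded k x hx
  rw [Finsupp.sum, map_sum]
  refine sum_mem fun i _ => ?_
  rw [dg_baseChange (hy i).2]
  split_ifs
  · exact (hy i).1
  · exact zero_mem _

end P1aux

open P1aux M1aux in
theorem stP1 (hc : StC1) : StP1 := by
  intro C X Y hXY σ hσ0 hσ hline 𝔫 h𝔫
  obtain ⟨lam, hlam⟩ := F6aux.exists_functional hσ0
  have hd : Dat (C.H X).toHodgeLattice ((C.H X).deg 1) σ lam := ⟨hlam, hσ, hline⟩
  let _ : Field (multS (C.H X).toHodgeLattice ((C.H X).deg 1) σ ⧸ 𝔫) := Ideal.Quotient.field 𝔫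
  let π : multS (C.H X).toHodgeLattice ((C.H X).deg 1) σ →+*
      (multS (C.H X).toHodgeLattice ((C.H X).deg 1) σ ⧸ 𝔫) := Ideal.Quotient.mk 𝔫
  -- the variety X
  have hX : rk hd π 1 (C.H X) ≠ 0 := by
    let f : At (C.H X).toHodgeLattice ((C.H X).deg 1) 1 (C.H X) :=
      ⟨((C.H X).deg 1).subtype, fun k x hx => hx, fun t => t.2⟩
    let g : Bf (C.H X).toHodgeLattice ((C.H X).deg 1) 1 (C.H X) :=
      ⟨pr (C.H X) 1, fun k x hx => by
        have h1 : inclS ((C.H X).deg 1) ((pr (C.H X) 1).baseChange ℂ x) =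
            (dg (C.H X) 1).baseChange ℂ x := by
          rw [← pr_sub, LinearMap.baseChange_comp]
          rfl
        rw [h1]
        exact dg_hodge _ _ _ _ hx, fun j hj x hx => Subtype.ext (by
          rw [pr_coe, dg_mem hx, if_neg hj]
          rfl)⟩
    have hgf : (g : (C.H X).V →ₗ[ℤ] (C.H X).deg 1) ∘ₗ (f : (C.H X).deg 1 →ₗ[ℤ] (C.H X).V) =
        LinearMap.id := by
      refine LinearMap.ext fun t => Subtype.ext ?_
      show ((pr (C.H X) 1 (t : (C.H X).V) : (C.H X).deg 1) : (C.H X).V) = t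
      rw [pr_coe, dg_mem t.2, if_pos rfl]
    have h1 : vv hd π 1 (C.H X) f g = 1 := by
      rw [vv_apply, ← map_one π]
      show π _ = π 1
      congr 1
      apply Subtype.ext
      show lam (((g : (C.H X).V →ₗ[ℤ] (C.H X).deg 1) ∘ₗ
        (f : (C.H X).deg 1 →ₗ[ℤ] (C.H X).V)).baseChange ℂ σ) = 1
      rw [hgf, LinearMap.baseChange_id]
      exact hlam
    have hfin := sp_finite (vv hd π 1 (C.H X))
    unfold rk
    intro h0
    have h2 := Int.natCast_eq_zero.1 h0
    rw [Submodule.finrank_eq_zero] at h2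
    have h3 : vv hd π 1 (C.H X) f ∈ sp (vv hd π 1 (C.H X)) := Submodule.subset_span ⟨f, rfl⟩
    rw [h2, Submodule.mem_bot] at h3
    rw [h3] at h1
    exact zero_ne_one h1
  rw [rk_eq hc hd π C X Y hXY 1] at hX
  by_contra hno
  apply hX
  have h7 : sp (vv hd π 1 (C.H Y)) = ⊥ := by
    unfold sp
    rw [Submodule.span_eq_bot]
    rintro _ ⟨f, rfl⟩
    funext g
    by_contra hne
    apply hno
    have he := comp_mem f g
    refine ⟨f, g, ⟨_, hd.memS he⟩, f.2, g.2, hd.eq he, fun hm => hne ?_⟩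
    exact Ideal.Quotient.eq_zero_iff_mem.2 hm
  unfold rk
  rw [h7, finrank_bot]
  rfl

end Pool.Agent.Lib.MP0cb87d
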