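import Pool.Agent.Lib.MP_0cb87d_ag.HKI.Stmts

/-! The compositions `H² (X) → H² (Y) → H² (X)` generate the unit ideal (module P2). -/

namespace Pool.Agent.Lib.MP0cb87d

open TensorProduct

namespace P2aux

variable (X : HodgeLattice) (S : Submodule ℤ X.V) (σ : ℂ ⊗[ℤ] S) (l : ℤ)
  (N : GradedHodgeLattice)

theorem homTo_comp {f : S →ₗ[ℤ] N.V} (hf : HomTo X S l N f) {e : S →ₗ[ℤ] S}
    (he : IsHodgeEnd X S e) : HomTo X S l N (f ∘ₗ e) := by
  refine ⟨fun k x hx => ?_, fun t => hf.2 _⟩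
  rw [LinearMap.baseChange_comp]
  exact hf.1 k _ (he k x hx)

/-- The ideal of the compositions. -/
def idl : Ideal (multS X S σ) where
  carrier := {c | ∃ (s : ℕ) (f : Fin s → (S →ₗ[ℤ] N.V)) (g : Fin s → (N.V →ₗ[ℤ] S)),
    (∀ i, HomTo X S l N (f i)) ∧ (∀ i, HomFrom X S l N (g i)) ∧
    ∑ i, (g i ∘ₗ f i).baseChange ℂ σ = (c : ℂ) • σ}
  add_mem' := by
    rintro a b ⟨s, f, g, hf, hg, h⟩ ⟨s', f', g', hf', hg', h'⟩
    refine ⟨s + s', Fin.append f f', Fin.append g g', fun i => ?_, fun i => ?_, ?_⟩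
    · refine Fin.addCases (fun i => ?_) (fun i => ?_) i
      · rw [Fin.append_left]; exact hf i
      · rw [Fin.append_right]; exact hf' i
    · refine Fin.addCases (fun i => ?_) (fun i => ?_) i
      · rw [Fin.append_left]; exact hg i
      · rw [Fin.append_right]; exact hg' i
    · rw [Fin.sum_univ_add]
      simp only [Fin.append_left, Fin.append_right]
      rw [h, h', ← add_smul]
      rfl
  zero_mem' := ⟨0, Fin.elim0, Fin.elim0, fun i => i.elim0, fun i => i.elim0, by simp⟩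
  smul_mem' := by
    rintro c x ⟨s, f, g, hf, hg, h⟩
    obtain ⟨e, he, hec⟩ := c.2
    refine ⟨s, fun i => f i ∘ₗ e, g, fun i => homTo_comp X S l N (hf i) he, hg, ?_⟩
    have h1 : ∀ i, (g i ∘ₗ (f i ∘ₗ e)).baseChange ℂ σ = (c : ℂ) • (g i ∘ₗ f i).baseChange ℂ σ := by
      intro i
      rw [← LinearMap.comp_assoc, LinearMap.baseChange_comp, LinearMap.comp_apply, hec, map_smul]
    simp_rw [h1]
    rw [← Finset.smul_sum, h, smul_smul]
    rfl

end P2aux

theorem stP2 (h : StP1) : StP2 := by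
  intro C X Y hL σ h0 h2 hline
  by_contra hcon
  have hne : P2aux.idl (C.H X).toHodgeLattice ((C.H X).deg 1) σ 1 (C.H Y) ≠ ⊤ := by
    intro htop
    rw [Ideal.eq_top_iff_one] at htop
    obtain ⟨s, f, g, hf, hg, h3⟩ := htop
    refine hcon ⟨s, f, g, hf, hg, ?_⟩
    rw [h3]
    simp
  obtain ⟨M, hM, hle⟩ := Ideal.exists_le_maximal _ hne
  obtain ⟨f, g, c, hf, hg, h3, h4⟩ := h C X Y hL σ h0 h2 hline M hM
  apply h4
  apply hle
  exact ⟨1, fun _ => f, fun _ => g, fun _ => hf, fun _ => hg, by simpa using h3⟩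

end Pool.Agent.Lib.MP0cb87d
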