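import Pool.Agent.Lib.MP_0cb87d_ag.HKI.Stmts

/-! The compositions on the level of transcendental lattices (module P3). -/

set_option autoImplicit false

namespace Pool.Agent.Lib.MP0cb87d

open TensorProduct

namespace P3aux

/-- The inclusion of the complexification of a subgroup is injective. -/
theorem inclS_inj {V : Type} [AddCommGroup V] (S : Submodule ℤ V) :
    Function.Injective (inclS S) :=
  Module.Flat.lTensor_preserves_injective_linearMap (M := ℂ) S.subtype S.injective_subtype

theorem incl_baseChange {V : Type} [AddCommGroup V] {S D : Submodule ℤ V} (hSD : S ≤ D)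
    (x : ℂ ⊗[ℤ] S) :
    inclS D ((Submodule.inclusion hSD).baseChange ℂ x) = inclS S x := by
  rw [inclS, ← LinearMap.comp_apply, ← LinearMap.baseChange_comp]
  rfl

theorem inclS_comp {V W : Type} [AddCommGroup V] [AddCommGroup W] (S : Submodule ℤ W)
    (f : V →ₗ[ℤ] S) (x : ℂ ⊗[ℤ] V) :
    inclS S (f.baseChange ℂ x) = (S.subtype ∘ₗ f).baseChange ℂ x := by
  rw [inclS, ← LinearMap.comp_apply, ← LinearMap.baseChange_comp]

variable {n n' : ℕ} {N N' : GradedHodgeLattice}

theorem trans_le (h : Hyperkahler n N) : h.trans ≤ N.deg 1 := fun _ hx => hx.1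

/-- Hodge maps with values in the part of degree one. -/
theorem exists_lift (hN2 : StN2) (h : Hyperkahler n N) (h' : Hyperkahler n' N')
    (f : h.trans →ₗ[ℤ] N'.V)
    (hf : IsHodgeFrom N.toHodgeLattice h.trans N'.toHodgeLattice f)
    (hd : ∀ t, f t ∈ N'.deg 1) :
    ∃ g : h.trans →ₗ[ℤ] h'.trans, ∀ t, (g t : N'.V) = f t := by
  by_cases h0 : f = 0
  · exact ⟨0, fun t => by rw [h0]; rfl⟩
  · obtain ⟨g, hg, -⟩ := hN2 n n' N N' h h' f hf hd h0
    exact ⟨g, hg⟩

end P3aux

open P3aux in
theorem stP3 (h2 : StP2) (hN1 : StN1) (hN2 : StN2) : StP3 := by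
  intro C X Y n hX hY hL
  obtain ⟨σ, hS, -, hirr, -, hline⟩ := hN1 n (C.H X) hX
  set σH : ℂ ⊗[ℤ] ((C.H X).deg 1) :=
    (Submodule.inclusion (trans_le hX)).baseChange ℂ σ with hσH
  have hinc : inclS ((C.H X).deg 1) σH = inclS hX.trans σ := incl_baseChange (trans_le hX) σ
  have hne : σH ≠ 0 := by
    intro h0
    apply hS.ne
    apply inclS_inj hX.trans
    rw [← hinc, h0, map_zero, map_zero]
  have hmem : inclS ((C.H X).deg 1) σH ∈ (C.H X).comp 2 := by
    rw [hinc]
    exact hS.mem
  have hlineH : ∀ z, inclS ((C.H X).deg 1) z ∈ (C.H X).comp 2 → ∃ c : ℂ, z = c • σH := by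
    intro z hz
    obtain ⟨c, hc⟩ := hline (inclS ((C.H X).deg 1) z) ⟨hz, ⟨z, rfl⟩⟩
    refine ⟨c, inclS_inj _ ?_⟩
    rw [hc, map_smul, hinc]
  obtain ⟨s, f0, g0, hf0, hg0, hsum⟩ := h2 C X Y hL σH hne hmem hlineH
  -- the maps of transcendental lattices
  have hfex : ∀ i, ∃ g : hX.trans →ₗ[ℤ] hY.trans, ∀ t,
      (g t : (C.H Y).V) = (f0 i ∘ₗ Submodule.inclusion (trans_le hX)) t := by
    intro i
    apply exists_lift hN2
    · intro k x hx
      rw [LinearMap.baseChange_comp, LinearMap.comp_apply]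
      apply (hf0 i).1 k
      have h3 := incl_baseChange (trans_le hX) x
      rw [inclS, inclS] at h3
      rw [h3]
      exact hx
    · intro t
      exact (hf0 i).2 _
  have hgex : ∀ i, ∃ g : hY.trans →ₗ[ℤ] hX.trans, ∀ t,
      (g t : (C.H X).V) = (((C.H X).deg 1).subtype ∘ₗ g0 i ∘ₗ hY.trans.subtype) t := by
    intro i
    apply exists_lift hN2
    · intro k x hx
      have h3 := (hg0 i).1 k _ hx
      rw [inclS, ← LinearMap.comp_apply, ← LinearMap.baseChange_comp, ← LinearMap.comp_apply,
        ← LinearMap.baseChange_comp] at h3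
      exact h3
    · intro t
      exact (g0 i (t : (C.H Y).V)).2
  choose f hf using hfex
  choose g hg using hgex
  refine ⟨s, fun i => (f0 i).codRestrict ((C.H Y).deg 1) (hf0 i).2,
    fun i => g0 i ∘ₗ ((C.H Y).deg 1).subtype, f, g, ?_, ?_, ?_, ?_, ?_, ?_, ?_⟩
  · intro i k z hz
    rw [inclS_comp]
    exact (hf0 i).1 k z hz
  · intro i k z hz
    rw [LinearMap.baseChange_comp, LinearMap.comp_apply]
    exact (hg0 i).1 k _ hz
  · intro i k z hz
    rw [inclS_comp]
    have e : hY.trans.subtype ∘ₗ f i = f0 i ∘ₗ Submodule.inclusion (trans_le hX) :=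
      LinearMap.ext fun t => hf i t
    rw [e, LinearMap.baseChange_comp, LinearMap.comp_apply]
    apply (hf0 i).1 k
    have h3 := incl_baseChange (trans_le hX) z
    rw [inclS] at h3
    rw [h3]
    exact hz
  · intro i k z hz
    rw [inclS_comp]
    have e : hX.trans.subtype ∘ₗ g i =
        ((C.H X).deg 1).subtype ∘ₗ g0 i ∘ₗ hY.trans.subtype :=
      LinearMap.ext fun t => hg i t
    rw [e, LinearMap.baseChange_comp, LinearMap.comp_apply, LinearMap.baseChange_comp,
      LinearMap.comp_apply]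
    exact (hg0 i).1 k _ hz
  · intro i t
    rw [hf i t]
    rfl
  · intro i t
    rw [hg i t]
    rfl
  · -- the sum
    have hterm : ∀ i, inclS hX.trans ((g i ∘ₗ f i).baseChange ℂ σ) =
        inclS ((C.H X).deg 1) ((g0 i ∘ₗ f0 i).baseChange ℂ σH) := by
      intro i
      rw [inclS_comp, inclS_comp, hσH, ← LinearMap.comp_apply, ← LinearMap.baseChange_comp]
      have e : hX.trans.subtype ∘ₗ (g i ∘ₗ f i) =
          (((C.H X).deg 1).subtype ∘ₗ (g0 i ∘ₗ f0 i)) ∘ₗ Submodule.inclusion (trans_le hX) := by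
        apply LinearMap.ext
        intro t
        have h4 := hg i (f i t)
        change (g i (f i t) : (C.H X).V) = _
        rw [h4]
        change ((g0 i (f i t : (C.H Y).V) : (C.H X).deg 1) : (C.H X).V) = _
        rw [hf i t]
        rfl
      rw [e]
    have h5 : (∑ i, g i ∘ₗ f i - LinearMap.id).baseChange ℂ σ = 0 := by
      have h6 : ∑ i, (g i ∘ₗ f i).baseChange ℂ σ = σ := by
        apply inclS_inj hX.trans
        rw [map_sum]
        simp only [hterm]
        rw [← map_sum, hsum, hinc]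
      have h7 : (∑ i, g i ∘ₗ f i).baseChange ℂ σ = ∑ i, (g i ∘ₗ f i).baseChange ℂ σ := by
        have h8 : ∀ u : Finset (Fin s), (∑ i ∈ u, g i ∘ₗ f i).baseChange ℂ σ =
            ∑ i ∈ u, (g i ∘ₗ f i).baseChange ℂ σ := by
          intro u
          induction u using Finset.induction_on with
          | empty => simp
          | insert a u ha ih =>
            rw [Finset.sum_insert ha, Finset.sum_insert ha, LinearMap.baseChange_add,
              LinearMap.add_apply, ih]
        exact h8 Finset.univ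
      rw [LinearMap.baseChange_sub, LinearMap.sub_apply, h7, h6, LinearMap.baseChange_id,
        LinearMap.id_apply, sub_self]
    have h9 := hirr hX.trans (∑ i, g i ∘ₗ f i - LinearMap.id) h5
    intro t
    have h10 := LinearMap.congr_fun h9 t
    rw [LinearMap.sub_apply, LinearMap.zero_apply, sub_eq_zero, LinearMap.id_apply,
      LinearMap.sum_apply] at h10
    exact h10

end Pool.Agent.Lib.MP0cb87d
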