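import Pool.Agent.Lib.MP_0cb87d_ag.HKI.Stmts

set_option autoImplicit false

/-! Divisibility from a cyclic quotient. -/

namespace Pool.Agent.Lib.MP0cb87d

open Pointwise

namespace Q1aux

variable {R : Type} [CommRing R] {T : Type}
  [AddCommGroup T] [Module R T]

/-- The submodule of all `x` with `B x ∈ D T`. -/
def T1 (T : Type) [AddCommGroup T] [Module R T] (B D : R) : Submodule R T where
  carrier := {x | ∃ x' : T, B • x = D • x'}
  zero_mem' := ⟨0, by simp⟩
  add_mem' := by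
    rintro x y ⟨x', hx⟩ ⟨y', hy⟩
    exact ⟨x' + y', by rw [smul_add, hx, hy, smul_add]⟩
  smul_mem' := by
    rintro c x ⟨x', hx⟩
    exact ⟨c • x', by rw [smul_comm, hx, smul_comm]⟩

theorem mem_T1 {B D : R} {x : T} : x ∈ T1 T B D ↔ ∃ x' : T, B • x = D • x' := Iff.rfl

/-- `T₁ ⊆ 𝔠 T` if `(D) = (D, B) 𝔠`. -/
theorem T1_le (ht : ∀ (r : R) (t : T), r • t = 0 → r = 0 ∨ t = 0) {B D : R} (hD : D ≠ 0)
    {𝔠 : Ideal R} (hc : Ideal.span {D} = Ideal.span {D, B} * 𝔠) :
    T1 T B D ≤ 𝔠 • (⊤ : Submodule R T) := by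
  intro x hx
  obtain ⟨x', hx'⟩ := hx
  have key : ∀ d ∈ Ideal.span {D, B} * 𝔠, ∃ z ∈ 𝔠 • (⊤ : Submodule R T), d • x = D • z := by
    intro d hd
    induction hd using Submodule.mul_induction_on' with
    | mem_mul_mem a ha c hc =>
      obtain ⟨u, v, rfl⟩ := Ideal.mem_span_pair.1 ha
      refine ⟨c • (u • x + v • x'), Submodule.smul_mem_smul hc trivial, ?_⟩
      have h1 : (u * D + v * B) • x = D • (u • x + v • x') := by
        rw [add_smul, mul_smul, mul_smul, hx', smul_add, smul_comm D u, smul_comm D v]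
      rw [mul_comm, mul_smul, h1, smul_comm]
    | add a _ b _ h1 h2 =>
      obtain ⟨z, hz, e⟩ := h1
      obtain ⟨w, hw, e'⟩ := h2
      exact ⟨z + w, Submodule.add_mem _ hz hw, by rw [add_smul, e, e', smul_add]⟩
  obtain ⟨z, hz, e⟩ := key D (by rw [← hc]; exact Ideal.mem_span_singleton_self D)
  have h0 : D • (x - z) = 0 := by rw [smul_sub, e, sub_self]
  rcases ht _ _ h0 with h | h
  · exact absurd h hD
  · rw [sub_eq_zero.1 h]
    exact hz

end Q1aux

open Q1aux in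
theorem stQ1 : StQ1 := by
  intro R _ _ _ T _ _ _ hxy ht B D l e hD hl
  obtain ⟨x₁, x₂, hind⟩ := hxy
  obtain ⟨𝔠, hc⟩ : Ideal.span {D, B} ∣ Ideal.span {D} := by
    rw [Ideal.dvd_iff_le]
    exact Ideal.span_mono (by simp)
  by_cases htop : 𝔠 = ⊤
  · rw [htop, Ideal.mul_top] at hc
    have hB : B ∈ Ideal.span {D} := by
      rw [hc]
      exact Ideal.subset_span (by simp)
    exact Ideal.mem_span_singleton.1 hB
  exfalso
  obtain ⟨𝔪, hm, hcm⟩ := Ideal.exists_le_maximal 𝔠 htop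
  -- the generator
  obtain ⟨y, hy⟩ : ∃ y : T, ∀ x : T, ∃ k : ℤ, l (x - k • y) = 0 := by
    obtain ⟨m, hm⟩ : ∃ m : ℤ, l.range = AddSubgroup.closure {m} := Int.subgroup_cyclic _
    have hmem : m ∈ l.range := by
      rw [hm]
      exact AddSubgroup.subset_closure rfl
    obtain ⟨y, hy⟩ := hmem
    refine ⟨y, fun x => ?_⟩
    have hx : l x ∈ AddSubgroup.closure {m} := by
      rw [← hm]
      exact ⟨x, rfl⟩
    obtain ⟨k, hk⟩ := AddSubgroup.mem_closure_singleton.1 hx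
    refine ⟨k, ?_⟩
    rw [map_sub, map_zsmul, hy, hk, sub_self]
  have hle : (⊤ : Submodule R T) ≤ Submodule.span R {y} ⊔ 𝔪 • ⊤ := by
    intro x _
    obtain ⟨k, hk⟩ := hy x
    have h1 : x - k • y ∈ T1 T B D := hl _ (by rw [hk]; exact dvd_zero e)
    have h2 : x - k • y ∈ 𝔪 • (⊤ : Submodule R T) :=
      Submodule.smul_mono hcm le_rfl (T1_le ht hD hc h1)
    have h3 : k • y ∈ Submodule.span R {y} :=
      zsmul_mem (Submodule.mem_span_singleton_self y) k
    have := Submodule.add_mem_sup h3 h2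
    rwa [add_sub_cancel] at this
  obtain ⟨r, hr, hr2⟩ := Submodule.exists_sub_one_mem_and_smul_le_of_fg_of_le_sup
    (N' := (⊤ : Submodule R T)) (N := Submodule.span R {y}) (P := ⊤) (I := 𝔪)
    Module.Finite.fg_top le_rfl hle
  have hr0 : r ≠ 0 := by
    rintro rfl
    rw [zero_sub] at hr
    exact hm.ne_top ((Ideal.eq_top_iff_one _).2 (by simpa using 𝔪.neg_mem hr))
  have hs : ∀ x : T, ∃ s : R, r • x = s • y := by
    intro x
    have : r • x ∈ Submodule.span R {y} := hr2 (Submodule.smul_mem_pointwise_smul x r ⊤ trivial)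
    obtain ⟨s, hs⟩ := Submodule.mem_span_singleton.1 this
    exact ⟨s, hs.symm⟩
  obtain ⟨s₁, h1⟩ := hs x₁
  obtain ⟨s₂, h2⟩ := hs x₂
  have h3 : (r * s₂) • x₁ + (-(r * s₁)) • x₂ = 0 := by
    rw [neg_smul, mul_comm r s₂, mul_comm r s₁, mul_smul, mul_smul, h1, h2, smul_comm]
    exact add_neg_cancel _
  obtain ⟨h4, h5⟩ := hind _ _ h3
  have hs1 : s₁ = 0 := by
    rcases mul_eq_zero.1 (neg_eq_zero.1 h5) with h | h
    · exact absurd h hr0
    · exact h
  have h6 : r • x₁ + (0 : R) • x₂ = 0 := by rw [h1, hs1, zero_smul, zero_smul, add_zero]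
  exact hr0 (hind _ _ h6).1

end Pool.Agent.Lib.MP0cb87d
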