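import Pool.Agent.Lib.MP_0cb87d_ag.HKI.Stmts

/-! Divisibility from a cyclic discriminant group. -/

namespace Pool.Agent.Lib.MP0cb87d

namespace Q2aux

/-- If all coordinates of an element are divisible by `n`, so is the element. -/
theorem exists_smul_of_forall_dvd {T : Type} [AddCommGroup T] [Module.Finite ℤ T]
    [Module.Free ℤ T] (n : ℤ) (w : T) (hw : ∀ l : T →+ ℤ, n ∣ l w) : ∃ w' : T, w = n • w' := by
  classical
  set bs := Module.Free.chooseBasis ℤ T with hbs
  have h1 : ∀ i, ∃ c : ℤ, bs.coord i w = n * c := fun i => hw (bs.coord i).toAddMonoidHom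
  choose c hc using h1
  refine ⟨∑ i, c i • bs i, ?_⟩
  have h2 := bs.sum_repr w
  rw [← h2, Finset.smul_sum]
  refine Finset.sum_congr rfl fun i _ => ?_
  have h3 : bs.repr w i = n * c i := by
    have h4 := hc i
    rwa [Module.Basis.coord_apply] at h4
  rw [h3, mul_smul]

end Q2aux

theorem stQ2 (h : StQ1) : StQ2 := by
  intro R _ _ _ _ T T' H H' _ _ _ _ _ hxy htf φ g g' b b' β β' G μ ν l₀ hν hg hg' hcyc hadj
  have : Module.Finite R T := Module.Finite.of_restrictScalars_finite ℤ R T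
  have hνR : (ν : R) ≠ 0 := by exact_mod_cast hν
  refine h R T hxy htf ((μ : R) * b * b') (ν : R)
    ((AddMonoidHom.mulLeft μ).comp (l₀.comp (φ.comp (g.comp φ)))) ν hνR fun x hx => ?_
  have hx' : ν ∣ μ * l₀ (φ (g (φ x))) := by simpa using hx
  have hB : ((μ : R) * b * b') • x = μ • g' (φ (g (φ x))) := by
    rw [hg', hg, ← Int.cast_smul_eq_zsmul R, ← mul_smul, ← mul_smul]
    congr 1
    ring
  obtain ⟨w', hw'⟩ := Q2aux.exists_smul_of_forall_dvd ν (((μ : R) * b * b') • x) (by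
    intro l
    obtain ⟨y, k, hyk⟩ := hcyc (l.comp g')
    have h1 := hyk (φ (g (φ x)))
    have h2 : l (g' (φ (g (φ x)))) = β' y (φ (g (φ x))) + k * l₀ (φ (g (φ x))) := by
      simpa using h1
    rw [hB, map_zsmul, smul_eq_mul, h2, mul_add, ← hadj y x]
    refine dvd_add (dvd_mul_right _ _) ?_
    have h3 : μ * (k * l₀ (φ (g (φ x)))) = k * (μ * l₀ (φ (g (φ x)))) := by ring
    rw [h3]
    exact dvd_mul_of_dvd_right hx' k)
  exact ⟨w', by rw [hw', Int.cast_smul_eq_zsmul R]⟩

end Pool.Agent.Lib.MP0cb87d
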