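import Pool.Agent.Lib.MP_0cb87d_ag.HK.Stmts

/-! The integral theorem on L-equivalent hyperkähler manifolds: statements of the modules. -/

namespace Pool.Agent.Lib.MP0cb87d

open TensorProduct

/-- Hodge maps between subgroups of Hodge lattices. -/
def IsHodgeSub (X Y : HodgeLattice) (S : Submodule ℤ X.V) (S' : Submodule ℤ Y.V)
    (f : S →ₗ[ℤ] S') : Prop :=
  ∀ k (z : ℂ ⊗[ℤ] S), inclS S z ∈ X.comp k → inclS S' (f.baseChange ℂ z) ∈ Y.comp k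

/-- The discriminant group of `H²` is cyclic. -/
def Hyperkahler.Cyclic {n : ℕ} {N : GradedHodgeLattice} (h : Hyperkahler n N) : Prop :=
  ∃ l₀ : N.V →ₗ[ℤ] ℤ, ∀ l : N.V →ₗ[ℤ] ℤ, ∃ x ∈ N.deg 1, ∃ k : ℤ, ∀ y ∈ N.deg 1,
    l y = h.q x y + k * l₀ y

/-- The transcendental lattices with the forms `q` are Hodge isometric. -/
def IntIsometric {n n' : ℕ} {N N' : GradedHodgeLattice} (h : Hyperkahler n N)
    (h' : Hyperkahler n' N') : Prop :=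
  ∃ e : h.trans ≃ₗ[ℤ] h'.trans,
    IsHodgeSub N.toHodgeLattice N'.toHodgeLattice h.trans h'.trans e.toLinearMap ∧
    IsHodgeSub N'.toHodgeLattice N.toHodgeLattice h'.trans h.trans e.symm.toLinearMap ∧
    ∀ x y : h.trans, h'.q (e x) (e y) = h.q x y

/-- The integral theorem. -/
def HKIntStatement : Prop :=
  ∀ (C : GradedEvenCohomology) (X Y : C.Var) (n : ℕ) (hX : Hyperkahler n (C.H X))
    (hY : Hyperkahler n (C.H Y)), C.LEquivalent X Y → hX.c = hY.c → hX.Cyclic → hY.Cyclic →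
  ∀ σ : ℂ ⊗[ℤ] hX.trans, Source (C.H X).toHodgeLattice hX.trans hX.qT 2 σ →
    IsIntegrallyClosed (multS (C.H X).toHodgeLattice hX.trans σ) →
    (∀ c ∈ multS (C.H X).toHodgeLattice hX.trans σ, starRingEnd ℂ c = c) →
    (Odd n ∨ multS (C.H X).toHodgeLattice hX.trans σ = ⊥) → IntIsometric hX hY

/-! ### Part P: the measure -/

/-- Hodge maps from `S` to the part of degree `l` of `N`. -/
def HomTo (X : HodgeLattice) (S : Submodule ℤ X.V) (l : ℤ) (N : GradedHodgeLattice)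
    (f : S →ₗ[ℤ] N.V) : Prop :=
  IsHodgeFrom X S N.toHodgeLattice f ∧ ∀ t, f t ∈ N.deg l

/-- Hodge maps to `S` from the part of degree `l` of `N`. -/
def HomFrom (X : HodgeLattice) (S : Submodule ℤ X.V) (l : ℤ) (N : GradedHodgeLattice)
    (g : N.V →ₗ[ℤ] S) : Prop :=
  (∀ k, ∀ x ∈ N.comp k, inclS S (g.baseChange ℂ x) ∈ X.comp k) ∧
    ∀ j, j ≠ l → ∀ x ∈ N.deg j, g x = 0

/-- For every maximal ideal of the ring of endomorphisms of `H² (X)` (acting on `σ`) some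
composition `H² (X) → H² (Y) → H² (X)` is not in the ideal. -/
def StP1 : Prop := ∀ (C : GradedEvenCohomology) (X Y : C.Var), C.LEquivalent X Y →
  ∀ σ : ℂ ⊗[ℤ] ((C.H X).deg 1), σ ≠ 0 → inclS ((C.H X).deg 1) σ ∈ (C.H X).comp 2 →
  (∀ z, inclS ((C.H X).deg 1) z ∈ (C.H X).comp 2 → ∃ c : ℂ, z = c • σ) →
  ∀ 𝔫 : Ideal (multS (C.H X).toHodgeLattice ((C.H X).deg 1) σ), 𝔫.IsMaximal →
  ∃ (f : (C.H X).deg 1 →ₗ[ℤ] (C.H Y).V) (g : (C.H Y).V →ₗ[ℤ] (C.H X).deg 1)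
    (c : multS (C.H X).toHodgeLattice ((C.H X).deg 1) σ),
    HomTo (C.H X).toHodgeLattice ((C.H X).deg 1) 1 (C.H Y) f ∧
    HomFrom (C.H X).toHodgeLattice ((C.H X).deg 1) 1 (C.H Y) g ∧
    (g ∘ₗ f).baseChange ℂ σ = (c : ℂ) • σ ∧ c ∉ 𝔫

/-- The compositions generate the unit ideal. -/
def StP2 : Prop := ∀ (C : GradedEvenCohomology) (X Y : C.Var), C.LEquivalent X Y →
  ∀ σ : ℂ ⊗[ℤ] ((C.H X).deg 1), σ ≠ 0 → inclS ((C.H X).deg 1) σ ∈ (C.H X).comp 2 →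
  (∀ z, inclS ((C.H X).deg 1) z ∈ (C.H X).comp 2 → ∃ c : ℂ, z = c • σ) →
  ∃ (s : ℕ) (f : Fin s → ((C.H X).deg 1 →ₗ[ℤ] (C.H Y).V))
    (g : Fin s → ((C.H Y).V →ₗ[ℤ] (C.H X).deg 1)),
    (∀ i, HomTo (C.H X).toHodgeLattice ((C.H X).deg 1) 1 (C.H Y) (f i)) ∧
    (∀ i, HomFrom (C.H X).toHodgeLattice ((C.H X).deg 1) 1 (C.H Y) (g i)) ∧
    ∑ i, (g i ∘ₗ f i).baseChange ℂ σ = σ

/-- The same on the level of transcendental lattices. -/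
def StP3 : Prop := ∀ (C : GradedEvenCohomology) (X Y : C.Var) (n : ℕ)
  (hX : Hyperkahler n (C.H X)) (hY : Hyperkahler n (C.H Y)), C.LEquivalent X Y →
  ∃ (s : ℕ) (F : Fin s → ((C.H X).deg 1 →ₗ[ℤ] (C.H Y).deg 1))
    (G : Fin s → ((C.H Y).deg 1 →ₗ[ℤ] (C.H X).deg 1))
    (f : Fin s → (hX.trans →ₗ[ℤ] hY.trans)) (g : Fin s → (hY.trans →ₗ[ℤ] hX.trans)),
    (∀ i, IsHodgeSub (C.H X).toHodgeLattice (C.H Y).toHodgeLattice _ _ (F i)) ∧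
    (∀ i, IsHodgeSub (C.H Y).toHodgeLattice (C.H X).toHodgeLattice _ _ (G i)) ∧
    (∀ i, IsHodgeSub (C.H X).toHodgeLattice (C.H Y).toHodgeLattice _ _ (f i)) ∧
    (∀ i, IsHodgeSub (C.H Y).toHodgeLattice (C.H X).toHodgeLattice _ _ (g i)) ∧
    (∀ i (t : hX.trans), (f i t : (C.H Y).V) = F i ⟨t, t.2.1⟩) ∧
    (∀ i (t : hY.trans), (g i t : (C.H X).V) = G i ⟨t, t.2.1⟩) ∧
    ∀ t, ∑ i, g i (f i t) = t

/-! ### Part R: sources and hyperkähler manifolds -/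

/-- The action of the ring of multipliers. -/
def StR1 : Prop := ∀ (X : HodgeLattice) (S : Submodule ℤ X.V) (β : LinearMap.BilinForm ℤ S)
  (k : ℤ) (ω : ℂ ⊗[ℤ] S), Source X S β k ω →
  ∃ ρ : multS X S ω →+* Module.End ℤ S,
    ∀ c, IsHodgeEnd X S (ρ c) ∧ (ρ c).baseChange ℂ ω = (c : ℂ) • ω

/-- If all multipliers are real, Hodge endomorphisms are self-adjoint, and the rank over the ring
of multipliers is at least `2`. -/
def StR2 : Prop := ∀ (X : HodgeLattice) (S : Submodule ℤ X.V) (β : LinearMap.BilinForm ℤ S)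
  (k : ℤ) (ω : ℂ ⊗[ℤ] S), 0 < k → Source X S β k ω →
  (∀ t : S, β.baseChange ℂ (1 ⊗ₜ t) ω = 0 → t = 0) →
  (∀ c ∈ multS X S ω, starRingEnd ℂ c = c) →
  (∀ f : S →ₗ[ℤ] S, IsHodgeEnd X S f → ∀ s t, β (f s) t = β s (f t)) ∧
  (∀ f : S →ₗ[ℤ] S, IsHodgeEnd X S f → ∀ t, f t = 0 → f = 0 ∨ t = 0) ∧
  ∃ x y : S, ∀ f g : S →ₗ[ℤ] S, IsHodgeEnd X S f → IsHodgeEnd X S g → f x + g y = 0 →
    f = 0 ∧ g = 0

/-- `H²` is spanned by transcendental and algebraic classes up to finite index. -/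
def StR3 : Prop := ∀ (n : ℕ) (N : GradedHodgeLattice) (h : Hyperkahler n N), ∀ x ∈ N.deg 1,
  ∃ (m : ℤ) (t : h.trans) (y : N.V), m ≠ 0 ∧ y ∈ N.deg 1 ∧ y ∈ algebraic N.toHodgeLattice ∧
    m • x = t + y

/-- Adjointness. -/
def StR4 : Prop := ∀ (n n' : ℕ) (N N' : GradedHodgeLattice) (h : Hyperkahler n N)
  (h' : Hyperkahler n' N') (φ : h.trans →ₗ[ℤ] h'.trans) (G : N'.deg 1 →ₗ[ℤ] N.deg 1)
  (g : h'.trans →ₗ[ℤ] h.trans) (μ ν : ℤ),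
  (∀ y : h'.trans, ∃ (m : ℤ) (x : h.trans), m ≠ 0 ∧ φ x = m • y) →
  IsHodgeSub N'.toHodgeLattice N.toHodgeLattice (N'.deg 1) (N.deg 1) G →
  (∀ t : h'.trans, (g t : N.V) = G ⟨t, t.2.1⟩) →
  (∀ s t : h.trans, μ * h'.q (φ s) (φ t) = ν * h.q s t) →
  (∀ s t : h.trans, h.q (g (φ s)) t = h.q s (g (φ t))) →
  ∀ (y : N'.deg 1) (t : h.trans), ν * h.q (G y) t = μ * h'.q y (φ (g (φ t)))

/-- Functionals on the transcendental lattice. -/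
def StR5 : Prop := ∀ (n : ℕ) (N : GradedHodgeLattice) (h : Hyperkahler n N), h.Cyclic →
  ∃ l₀ : h.trans →+ ℤ, ∀ l : h.trans →+ ℤ, ∃ (x : N.deg 1) (k : ℤ), ∀ t : h.trans,
    l t = h.q x t + k * l₀ t

/-- A quasi-inverse of a Hodge map of transcendental lattices. -/
def StR6 : Prop := ∀ (n n' : ℕ) (N N' : GradedHodgeLattice) (h : Hyperkahler n N)
  (h' : Hyperkahler n' N') (φ : h.trans →ₗ[ℤ] h'.trans),
  IsHodgeSub N.toHodgeLattice N'.toHodgeLattice h.trans h'.trans φ → Function.Injective φ →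
  (∃ m : ℕ, 0 < m ∧ ∀ y : h'.trans, ∃ x : h.trans, φ x = m • y) →
  ∃ (m : ℕ) (φ' : h'.trans →ₗ[ℤ] h.trans), 0 < m ∧
    IsHodgeSub N'.toHodgeLattice N.toHodgeLattice h'.trans h.trans φ' ∧
    (∀ t, φ' (φ t) = m • t) ∧ (∀ t, φ (φ' t) = m • t)

/-- If `ℤ` is the ring of multipliers, a Hodge map multiplies the form by a rational number. -/
def StR7 : Prop := ∀ (n n' : ℕ) (N N' : GradedHodgeLattice) (h : Hyperkahler n N)
  (h' : Hyperkahler n' N') (φ : h.trans →ₗ[ℤ] h'.trans),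
  IsHodgeSub N.toHodgeLattice N'.toHodgeLattice h.trans h'.trans φ → Function.Injective φ →
  ∀ σ, Source N.toHodgeLattice h.trans h.qT 2 σ → multS N.toHodgeLattice h.trans σ = ⊥ →
  ∃ μ ν : ℤ, 0 < μ ∧ 0 < ν ∧ ∀ s t : h.trans, μ * h'.q (φ s) (φ t) = ν * h.q s t

/-! ### Part Q: algebra -/

/-- Divisibility from a cyclic quotient. -/
def StQ1 : Prop := ∀ (R : Type) [CommRing R] [IsDomain R] [IsDedekindDomain R] (T : Type)
  [AddCommGroup T] [Module R T] [Module.Finite R T],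
  (∃ x y : T, ∀ r s : R, r • x + s • y = 0 → r = 0 ∧ s = 0) →
  (∀ (r : R) (t : T), r • t = 0 → r = 0 ∨ t = 0) →
  ∀ (B D : R) (l : T →+ ℤ) (e : ℤ), D ≠ 0 → (∀ x : T, e ∣ l x → ∃ x', B • x = D • x') → D ∣ B

/-- Divisibility from a cyclic discriminant group. -/
def StQ2 : Prop := ∀ (R : Type) [CommRing R] [IsDomain R] [IsDedekindDomain R] [CharZero R]
  (T T' H H' : Type) [AddCommGroup T] [Module R T] [Module.Finite ℤ T] [Module.Free ℤ T]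
  [AddCommGroup T'],
  (∃ x y : T, ∀ r s : R, r • x + s • y = 0 → r = 0 ∧ s = 0) →
  (∀ (r : R) (t : T), r • t = 0 → r = 0 ∨ t = 0) →
  ∀ (φ : T →+ T') (g g' : T' →+ T) (b b' : R) (β : H → T → ℤ) (β' : H' → T' → ℤ) (G : H' → H)
    (μ ν : ℤ) (l₀ : T' →+ ℤ), ν ≠ 0 → (∀ t, g (φ t) = b • t) → (∀ t, g' (φ t) = b' • t) →
  (∀ l : T' →+ ℤ, ∃ (y : H') (k : ℤ), ∀ t, l t = β' y t + k * l₀ t) →
  (∀ y t, ν * β (G y) t = μ * β' y (φ (g (φ t)))) →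
  (ν : R) ∣ (μ : R) * b * b'

/-- The conclusion of the algebraic part. -/
def StQ3 : Prop := ∀ (R : Type) [CommRing R] [IsDomain R] [IsIntegrallyClosed R] [CharZero R]
  (T T' : Type) [AddCommGroup T] [Module R T] [AddCommGroup T'] [Module R T'],
  (∀ (r : R) (t : T), r • t = 0 → r = 0 ∨ t = 0) →
  (∀ (r : R) (t : T'), r • t = 0 → r = 0 ∨ t = 0) → (∃ t : T, t ≠ 0) →
  ∀ (φ : T →ₗ[R] T') (φ' : T' →ₗ[R] T) (s : ℕ) (f : Fin s → (T →+ T')) (g : Fin s → (T' →+ T))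
    (a b : Fin s → R) (M r : ℕ), 0 < M → 0 < r →
  (∀ t, φ' (φ t) = M • t) → (∀ t, φ (φ' t) = M • t) →
  (∀ i t, g i (φ t) = b i • t) → (∀ i t, φ' (f i t) = a i • t) →
  (∀ t, ∑ i, g i (f i t) = t) →
  (∀ i, (r : R) ^ 2 ∣ b i ^ 2) → (∀ i, (M : R) ^ 2 ∣ (r : R) ^ 2 * a i ^ 2) →
  (∀ t, ∃ t', φ t = r • t') ∧ (∀ t', ∃ t, φ t = r • t')

/-- The case of the integers. -/
def StQ4 : Prop := ∀ (s : ℕ) (a b : Fin s → ℤ) (M μ ν : ℤ), 0 < M → 0 < μ → 0 < ν →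
  ∑ i, a i * b i = M → (∀ i j, M ∣ a i * b j) → (∀ i j, ν ∣ μ * b i * b j) →
  (∀ i j, M ^ 2 * μ ∣ ν * a i * a j) → ∃ r : ℕ, 0 < r ∧ ν = μ * r ^ 2

end Pool.Agent.Lib.MP0cb87d
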