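import Mathlib
import Pool.Agent.Lib.MP_0cb87d_ag.HKI.Stmts

/-!
The conclusion of the algebraic part.
-/

namespace Pool.Agent.Lib.MP0cb87d

namespace Q3aux

variable {R : Type} [CommRing R] [IsDomain R] [CharZero R]

omit [IsDomain R] in
private theorem cancel {T : Type} [AddCommGroup T] [Module R T]
    (h : ∀ (r : R) (t : T), r • t = 0 → r = 0 ∨ t = 0) {M : ℕ} (hM : 0 < M) {x y : T}
    (hxy : M • x = M • y) : x = y := by
  have h1 : (M : R) • (x - y) = 0 := by
    rw [smul_sub, Nat.cast_smul_eq_nsmul, Nat.cast_smul_eq_nsmul, hxy, sub_self]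
  rcases h _ _ h1 with h2 | h2
  · exact absurd h2 (Nat.cast_ne_zero.2 hM.ne')
  · exact sub_eq_zero.1 h2

end Q3aux

/-- The conclusion of the algebraic part. -/
theorem stQ3 : StQ3 := by
  intro R _ _ _ _ T T' _ _ _ _ htf htf' hne φ φ' s f g a b M r hM hr h1 h2 h3 h4 h5 h6 h7
  obtain ⟨t0, ht0⟩ := hne
  have e1 : ∀ i y, φ (g i y) = b i • y := by
    intro i y
    apply Q3aux.cancel htf' hM
    rw [← map_nsmul, ← map_nsmul, ← h2 y, h3, map_smul, h2, smul_comm]
  have e2 : ∀ i t, M • f i t = a i • φ t := by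
    intro i t
    rw [← h2 (f i t), h4, map_smul]
  have e3 : ∑ i, a i * b i = (M : R) := by
    have h8 : (∑ i, a i * b i - (M : R)) • t0 = 0 := by
      rw [sub_smul, Finset.sum_smul, Nat.cast_smul_eq_nsmul]
      have h9 : ∀ i, (a i * b i) • t0 = M • g i (f i t0) := by
        intro i
        rw [← map_nsmul, e2, ← map_smul, h3, smul_smul, mul_comm]
      rw [Finset.sum_congr rfl fun i _ => h9 i, ← Finset.smul_sum, h5, sub_self]
    rcases htf _ _ h8 with h9 | h9
    · exact sub_eq_zero.1 h9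
    · exact absurd h9 ht0
  have e4 : ∀ i, ∃ c : R, b i = (r : R) * c := fun i =>
    (IsIntegrallyClosed.pow_dvd_pow_iff two_ne_zero).1 (h6 i)
  have e5 : ∀ i, ∃ c : R, (r : R) * a i = (M : R) * c := fun i =>
    (IsIntegrallyClosed.pow_dvd_pow_iff two_ne_zero).1 (by rw [mul_pow]; exact h7 i)
  choose b' hb' using e4
  choose a' ha' using e5
  constructor
  · intro t
    refine ⟨∑ i, b' i • f i t, ?_⟩
    have h8 : φ t = ∑ i, b i • f i t := by
      rw [← Finset.sum_congr rfl fun i _ => e1 i (f i t), ← map_sum, h5]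
    rw [h8, Finset.smul_sum]
    refine Finset.sum_congr rfl fun i _ => ?_
    rw [hb' i, mul_smul, Nat.cast_smul_eq_nsmul]
  · intro t'
    refine ⟨∑ i, a' i • g i t', ?_⟩
    apply Q3aux.cancel htf' hM
    rw [map_sum]
    have h8 : ∀ i, φ (a' i • g i t') = (a' i * b i) • t' := by
      intro i
      rw [map_smul, e1, smul_smul]
    rw [Finset.sum_congr rfl fun i _ => h8 i, ← Finset.sum_smul, ← Nat.cast_smul_eq_nsmul R M,
      ← Nat.cast_smul_eq_nsmul R M, ← Nat.cast_smul_eq_nsmul R r, smul_smul, smul_smul]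
    congr 1
    rw [Finset.mul_sum]
    have h9 : ∀ i, (M : R) * (a' i * b i) = (r : R) * (a i * b i) := by
      intro i
      rw [← mul_assoc, ← ha' i, mul_assoc]
    rw [Finset.sum_congr rfl fun i _ => h9 i, ← Finset.mul_sum, e3, mul_comm]

end Pool.Agent.Lib.MP0cb87d
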