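import Pool.Agent.Lib.MP_0cb87d_ag.HKI.Stmts

set_option autoImplicit false

/-!
(Q4) The case of the integers.
-/

namespace Pool.Agent.Lib.MP0cb87d

namespace Q4aux

theorem dvd_mul_gcd {s : ℕ} (a : Fin s → ℤ) (c d : ℤ) (h : ∀ i, d ∣ c * a i) :
    d ∣ c * Finset.univ.gcd a := by
  have h1 : d ∣ Finset.univ.gcd fun i => c * a i := Finset.dvd_gcd fun i _ => h i
  rw [Finset.gcd_mul_left] at h1
  exact (((normalize_associated c).mul_right _).dvd_iff_dvd_right).1 h1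

theorem dvd_mul_gcd_gcd {s : ℕ} (a b : Fin s → ℤ) (c d : ℤ) (h : ∀ i j, d ∣ c * a i * b j) :
    d ∣ c * Finset.univ.gcd a * Finset.univ.gcd b := by
  refine dvd_mul_gcd b _ d fun j => ?_
  have h1 := dvd_mul_gcd a (c * b j) d fun i => by
    have h2 := h i j
    rwa [mul_right_comm] at h2
  rwa [mul_right_comm] at h1

end Q4aux

open Q4aux in
theorem stQ4 : StQ4 := by
  intro s a b M μ ν hM hμ hν hsum hab hb ha
  set A : ℤ := Finset.univ.gcd a with hA
  set B : ℤ := Finset.univ.gcd b with hB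
  have h1 : M ∣ A * B := by
    have := dvd_mul_gcd_gcd a b 1 M fun i j => by
      rw [one_mul]
      exact hab i j
    rwa [one_mul] at this
  have h2 : A * B ∣ M := by
    rw [← hsum]
    refine Finset.dvd_sum fun i _ => mul_dvd_mul ?_ ?_
    · exact Finset.gcd_dvd (Finset.mem_univ i)
    · exact Finset.gcd_dvd (Finset.mem_univ i)
  have h3 : ν ∣ μ * B * B := dvd_mul_gcd_gcd b b μ ν hb
  have h4 : M ^ 2 * μ ∣ ν * A * A := dvd_mul_gcd_gcd a a ν (M ^ 2 * μ) ha
  have hA0 : 0 ≤ A := Int.nonneg_of_normalize_eq_self Finset.normalize_gcd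
  have hB0 : 0 ≤ B := Int.nonneg_of_normalize_eq_self Finset.normalize_gcd
  have h5 : A * B = M := Int.dvd_antisymm (mul_nonneg hA0 hB0) hM.le h2 h1
  have hB1 : B ≠ 0 := by
    intro h0
    rw [h0, mul_zero] at h5
    exact hM.ne h5
  have hB2 : 0 < B := lt_of_le_of_ne hB0 (Ne.symm hB1)
  have h6 : μ * B * B ∣ ν := by
    have h7 : M ^ 2 * (μ * B * B) ∣ M ^ 2 * ν := by
      have h8 := mul_dvd_mul_right h4 (B * B)
      have e1 : M ^ 2 * μ * (B * B) = M ^ 2 * (μ * B * B) := by ring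
      have e2 : ν * A * A * (B * B) = M ^ 2 * ν := by rw [← h5]; ring
      rwa [e1, e2] at h8
    exact Int.dvd_of_mul_dvd_mul_left (pow_ne_zero 2 hM.ne') h7
  have h7 : ν = μ * B * B :=
    Int.dvd_antisymm hν.le (mul_nonneg (mul_nonneg hμ.le hB0) hB0) h3 h6
  refine ⟨B.natAbs, Int.natAbs_pos.2 hB1, ?_⟩
  rw [Int.natAbs_sq, h7]
  ring

end Pool.Agent.Lib.MP0cb87d
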