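import Pool.Agent.Lib.MP_0cb87d_ag.HKI.Stmts

/-! The ring of multipliers of a source acts. -/

namespace Pool.Agent.Lib.MP0cb87d

open TensorProduct

namespace R1aux

variable {X : HodgeLattice} {S : Submodule ℤ X.V}

theorem hodge_zero : IsHodgeEnd X S 0 := fun k x _ => by
  rw [LinearMap.baseChange_zero, LinearMap.zero_apply, map_zero]
  exact (X.comp k).zero_mem

theorem hodge_one : IsHodgeEnd X S 1 := fun k x hx => by
  have h1 : (1 : Module.End ℤ S).baseChange ℂ = (LinearMap.id : ℂ ⊗[ℤ] S →ₗ[ℂ] ℂ ⊗[ℤ] S) :=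
    LinearMap.baseChange_id
  rw [h1]
  exact hx

theorem hodge_add {f g : S →ₗ[ℤ] S} (hf : IsHodgeEnd X S f) (hg : IsHodgeEnd X S g) :
    IsHodgeEnd X S (f + g) := fun k x hx => by
  rw [LinearMap.baseChange_add, LinearMap.add_apply, map_add]
  exact (X.comp k).add_mem (hf k x hx) (hg k x hx)

theorem hodge_sub {f g : S →ₗ[ℤ] S} (hf : IsHodgeEnd X S f) (hg : IsHodgeEnd X S g) :
    IsHodgeEnd X S (f - g) := fun k x hx => by
  rw [LinearMap.baseChange_sub, LinearMap.sub_apply, map_sub]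
  exact (X.comp k).sub_mem (hf k x hx) (hg k x hx)

theorem hodge_comp {f g : S →ₗ[ℤ] S} (hf : IsHodgeEnd X S f) (hg : IsHodgeEnd X S g) :
    IsHodgeEnd X S (f ∘ₗ g) := fun k x hx => by
  rw [LinearMap.baseChange_comp]
  exact hf k _ (hg k x hx)

/-- Hodge endomorphisms are determined by their value on `ω`. -/
theorem uniq {β : LinearMap.BilinForm ℤ S} {k : ℤ} {ω : ℂ ⊗[ℤ] S} (h : Source X S β k ω)
    {f g : S →ₗ[ℤ] S} (hf : IsHodgeEnd X S f) (hg : IsHodgeEnd X S g)
    (hfg : f.baseChange ℂ ω = g.baseChange ℂ ω) : f = g := by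
  have := h.irr (f - g) (hodge_sub hf hg) (by
    rw [LinearMap.baseChange_sub, LinearMap.sub_apply, hfg, sub_self])
  exact sub_eq_zero.1 this

end R1aux

open R1aux in
theorem stR1 : StR1 := by
  intro X S β k ω h
  choose f hf hfω using fun c : multS X S ω => c.2
  refine ⟨{ toFun := f, map_one' := ?_, map_mul' := ?_, map_zero' := ?_, map_add' := ?_ },
    fun c => ⟨hf c, hfω c⟩⟩
  · refine uniq h (hf 1) hodge_one ?_
    rw [hfω]
    have h1 : (1 : Module.End ℤ S).baseChange ℂ = (LinearMap.id : ℂ ⊗[ℤ] S →ₗ[ℂ] ℂ ⊗[ℤ] S) :=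
      LinearMap.baseChange_id
    rw [h1]
    simp
  · intro a b
    refine uniq h (hf (a * b)) (hodge_comp (hf a) (hf b)) ?_
    rw [hfω]
    have h1 : (f a * f b : Module.End ℤ S).baseChange ℂ ω =
        (f a).baseChange ℂ ((f b).baseChange ℂ ω) := by
      have h2 : (f a * f b : Module.End ℤ S) = f a ∘ₗ f b := rfl
      rw [h2, LinearMap.baseChange_comp, LinearMap.comp_apply]
    rw [h1, hfω, map_smul, hfω, smul_smul, mul_comm (b : ℂ)]
    rfl
  · refine uniq h (hf 0) hodge_zero ?_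
    rw [hfω, LinearMap.baseChange_zero]
    simp
  · intro a b
    refine uniq h (hf (a + b)) (hodge_add (hf a) (hf b)) ?_
    rw [hfω, LinearMap.baseChange_add, LinearMap.add_apply, hfω, hfω, ← add_smul]
    rfl

end Pool.Agent.Lib.MP0cb87d
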