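import Pool.Agent.Lib.MP_0cb87d_ag.HKI.Stmts
import Pool.Agent.Lib.MP_0cb87d_ag.HK.L1
import Pool.Agent.Lib.MP_0cb87d_ag.HK.N4

/-! Module R2: Hodge endomorphisms are self-adjoint if all multipliers are real, and the rank over
the ring of multipliers is at least two. -/

set_option autoImplicit false

namespace Pool.Agent.Lib.MP0cb87d

open TensorProduct

namespace R2aux

theorem inclS_inj {V : Type} [AddCommGroup V] (S : Submodule ℤ V) :
    Function.Injective (inclS S) :=
  Module.Flat.lTensor_preserves_injective_linearMap (M := ℂ) S.subtype S.injective_subtype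

theorem inclS_conj {V : Type} [AddCommGroup V] (S : Submodule ℤ V) (x : ℂ ⊗[ℤ] S) :
    inclS S (conj _ x) = conj _ (inclS S x) := by
  induction x using TensorProduct.induction_on with
  | zero => simp
  | tmul a v => rfl
  | add x y hx hy => simp only [map_add, hx, hy]

theorem symmC {V : Type} [AddCommGroup V] (β : LinearMap.BilinForm ℤ V)
    (h : ∀ x y, β x y = β y x) (x y : ℂ ⊗[ℤ] V) :
    β.baseChange ℂ x y = β.baseChange ℂ y x := by
  induction x using TensorProduct.induction_on with
  | zero => simp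
  | add x x' hx hx' => simp only [map_add, LinearMap.add_apply, hx, hx']
  | tmul z v =>
    induction y using TensorProduct.induction_on with
    | zero => simp
    | add y y' hy hy' => simp only [map_add, LinearMap.add_apply, hy, hy']
    | tmul z' v' =>
      rw [LinearMap.BilinForm.baseChange_tmul, LinearMap.BilinForm.baseChange_tmul, h v v',
        mul_comm z z']

/-- The skew part of an endomorphism. -/
def skew {V : Type} [AddCommGroup V] (β : LinearMap.BilinForm ℤ V) (f : V →ₗ[ℤ] V) :
    LinearMap.BilinForm ℤ V :=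
  β.compl₁₂ f LinearMap.id - β.compl₁₂ LinearMap.id f

theorem skew_apply {V : Type} [AddCommGroup V] (β : LinearMap.BilinForm ℤ V) (f : V →ₗ[ℤ] V)
    (s t : V) : skew β f s t = β (f s) t - β s (f t) := rfl

theorem skewC {V : Type} [AddCommGroup V] (β : LinearMap.BilinForm ℤ V) (f : V →ₗ[ℤ] V)
    (x y : ℂ ⊗[ℤ] V) : (skew β f).baseChange ℂ x y =
      β.baseChange ℂ (f.baseChange ℂ x) y - β.baseChange ℂ x (f.baseChange ℂ y) := by
  induction x using TensorProduct.induction_on with
  | zero => simp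
  | add x x' hx hx' => simp only [map_add, LinearMap.add_apply, hx, hx']; ring
  | tmul z v =>
    induction y using TensorProduct.induction_on with
    | zero => simp
    | add y y' hy hy' => simp only [map_add, hy, hy']; ring
    | tmul z' v' =>
      simp only [LinearMap.BilinForm.baseChange_tmul, LinearMap.baseChange_tmul, skew_apply]
      simp only [zsmul_eq_mul, Int.cast_sub]
      ring

theorem selfadjC {V : Type} [AddCommGroup V] (β : LinearMap.BilinForm ℤ V) (f : V →ₗ[ℤ] V)
    (h : ∀ s t, β (f s) t = β s (f t)) (x y : ℂ ⊗[ℤ] V) :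
    β.baseChange ℂ (f.baseChange ℂ x) y = β.baseChange ℂ x (f.baseChange ℂ y) := by
  have h0 : skew β f = 0 := by
    ext s t
    rw [skew_apply, h, sub_self]
    rfl
  have h1 := skewC β f x y
  rw [h0] at h1
  have h2 : (0 : LinearMap.BilinForm ℤ V).baseChange ℂ x y = 0 := by simp
  rw [h2] at h1
  exact (sub_eq_zero.1 h1.symm)

end R2aux

open R2aux

theorem stR2 (hL1 : StL1) : StR2 := by
  intro X S β k ω hk hS hev hreal
  -- the multiplier of a Hodge endomorphism
  have hmult : ∀ f : S →ₗ[ℤ] S, IsHodgeEnd X S f → ∃ c : ℂ, f.baseChange ℂ ω = c • ω ∧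
      starRingEnd ℂ c = c := by
    intro f hf
    obtain ⟨c, hc⟩ := hS.line _ (hf k ω hS.mem)
    exact ⟨c, hc, hreal c ⟨f, hf, hc⟩⟩
  have hself : ∀ f : S →ₗ[ℤ] S, IsHodgeEnd X S f → ∀ s t, β (f s) t = β s (f t) := by
    intro f hf s t
    obtain ⟨c, hc, hcr⟩ := hmult f hf
    have hH : IsHodgeFormOn X S (skew β f) := by
      intro i j hij x y hx hy
      rw [skewC, hS.orth i j hij _ _ (hf i x hx) hy, hS.orth i j hij _ _ hx (hf j y hy), sub_self]
    have h0 : (skew β f).baseChange ℂ ω (conj S ω) = 0 := by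
      have h1 : f.baseChange ℂ (conj S ω) = c • conj S ω := by
        rw [← stN5.2.2.2.1 S S f ω, hc, stN5.2.2.2.2.1, hcr]
      rw [skewC, h1, hc, map_smul, map_smul, LinearMap.smul_apply, sub_self]
    have h2 := (hL1 X S β k ω hS (skew β f) hH).2 h0
    have h3 : skew β f s t = 0 := by rw [h2]; rfl
    rw [skew_apply] at h3
    exact sub_eq_zero.1 h3
  -- pairing with ω
  have hpair : ∀ f : S →ₗ[ℤ] S, IsHodgeEnd X S f → ∀ c : ℂ, f.baseChange ℂ ω = c • ω → ∀ t : S,
      β.baseChange ℂ (1 ⊗ₜ (f t)) ω = c * β.baseChange ℂ (1 ⊗ₜ t) ω := by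
    intro f hf c hc t
    have h1 : (1 : ℂ) ⊗ₜ[ℤ] (f t) = f.baseChange ℂ (1 ⊗ₜ t) := by
      rw [LinearMap.baseChange_tmul]
    rw [h1, selfadjC β f (hself f hf), hc, map_smul, smul_eq_mul]
  refine ⟨hself, ?_, ?_⟩
  · intro f hf t ht
    obtain ⟨c, hc, hcr⟩ := hmult f hf
    have h1 := hpair f hf c hc t
    rw [ht, TensorProduct.tmul_zero, map_zero, LinearMap.zero_apply] at h1
    rcases mul_eq_zero.1 h1.symm with h | h
    · left
      apply hS.irr f hf
      rw [hc, h, zero_smul]
    · right
      exact hev t h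
  · -- a vector with nonzero pairing
    obtain ⟨x, hx⟩ : ∃ x : S, β.baseChange ℂ (1 ⊗ₜ x) ω ≠ 0 := by
      by_contra hcon
      push Not at hcon
      apply hS.ne
      apply L1aux.nondeg_complex β hS.nondeg
      intro z
      rw [symmC β hS.symm]
      induction z using TensorProduct.induction_on with
      | zero => simp
      | add a b ha hb => rw [map_add, LinearMap.add_apply, ha, hb, add_zero]
      | tmul a t =>
        have h1 : a ⊗ₜ[ℤ] t = a • ((1 : ℂ) ⊗ₜ[ℤ] t) := by
          rw [TensorProduct.smul_tmul', smul_eq_mul, mul_one]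
        rw [h1, map_smul, LinearMap.smul_apply, hcon t, smul_zero]
    set l : ℂ := β.baseChange ℂ (1 ⊗ₜ x) ω with hl
    obtain ⟨y, hy⟩ : ∃ y : S, β.baseChange ℂ (1 ⊗ₜ y) ω * starRingEnd ℂ l ≠
        starRingEnd ℂ (β.baseChange ℂ (1 ⊗ₜ y) ω) * l := by
      by_contra hcon
      push Not at hcon
      -- the difference is zero
      have hz : (starRingEnd ℂ l) • ω - l • conj S ω = 0 := by
        apply L1aux.nondeg_complex β hS.nondeg
        intro z
        rw [symmC β hS.symm]
        induction z using TensorProduct.induction_on with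
        | zero => simp
        | add a b ha hb => rw [map_add, LinearMap.add_apply, ha, hb, add_zero]
        | tmul a t =>
          have h1 : a ⊗ₜ[ℤ] t = a • ((1 : ℂ) ⊗ₜ[ℤ] t) := by
            rw [TensorProduct.smul_tmul', smul_eq_mul, mul_one]
          have h2 : conj S ((1 : ℂ) ⊗ₜ[ℤ] t) = (1 : ℂ) ⊗ₜ[ℤ] t := by
            have : conj S ((1 : ℂ) ⊗ₜ[ℤ] t) = (starRingEnd ℂ 1) ⊗ₜ[ℤ] t := rfl
            rw [this, map_one]
          have h3 : β.baseChange ℂ ((1 : ℂ) ⊗ₜ[ℤ] t) (conj S ω) =
              starRingEnd ℂ (β.baseChange ℂ ((1 : ℂ) ⊗ₜ[ℤ] t) ω) := by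
            rw [← stN5.2.2.2.2.2.1 S β ((1 : ℂ) ⊗ₜ[ℤ] t) ω, h2]
          rw [h1, map_smul, LinearMap.smul_apply, map_sub, map_smul, map_smul, h3]
          have h4 := hcon t
          rw [smul_eq_mul, smul_eq_mul, smul_eq_mul]
          have h5 : (starRingEnd ℂ) l * ((β.baseChange ℂ) ((1 : ℂ) ⊗ₜ[ℤ] t)) ω -
              l * (starRingEnd ℂ) (((β.baseChange ℂ) ((1 : ℂ) ⊗ₜ[ℤ] t)) ω) = 0 := by
            linear_combination h4
          rw [h5, mul_zero]
      have h1 : (starRingEnd ℂ l) • inclS S ω = l • conj _ (inclS S ω) := by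
        have h2 := congrArg (inclS S) hz
        rw [map_sub, map_smul, map_smul, map_zero, inclS_conj] at h2
        exact sub_eq_zero.1 h2
      have hdis : Disjoint (X.comp k) (X.comp (-k)) :=
        X.internal.submodule_iSupIndep.pairwiseDisjoint (by omega)
      have h3 : (starRingEnd ℂ l) • inclS S ω = 0 := by
        refine Submodule.disjoint_def.1 hdis _ (Submodule.smul_mem _ _ hS.mem) ?_
        rw [h1]
        exact Submodule.smul_mem _ _ (X.conj_mem k _ hS.mem)
      rcases smul_eq_zero.1 h3 with h | h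
      · apply hx
        exact (map_eq_zero (starRingEnd ℂ)).1 h
      · apply hS.ne
        apply inclS_inj S
        rw [h, map_zero]
    refine ⟨x, y, fun f g hf hg hfg => ?_⟩
    obtain ⟨r, hr, hrr⟩ := hmult f hf
    obtain ⟨s, hs, hsr⟩ := hmult g hg
    have h1 : r * l + s * β.baseChange ℂ (1 ⊗ₜ y) ω = 0 := by
      rw [hl, ← hpair f hf r hr x, ← hpair g hg s hs y, ← LinearMap.add_apply, ← map_add,
        ← TensorProduct.tmul_add, hfg, TensorProduct.tmul_zero, map_zero, LinearMap.zero_apply]
    have h2 : r * starRingEnd ℂ l + s * starRingEnd ℂ (β.baseChange ℂ (1 ⊗ₜ y) ω) = 0 := by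
      have h3 := congrArg (starRingEnd ℂ) h1
      rw [map_add, map_mul, map_mul, hrr, hsr, map_zero] at h3
      exact h3
    have hs0 : s = 0 := by
      have h4 : s * (β.baseChange ℂ (1 ⊗ₜ y) ω * starRingEnd ℂ l -
          starRingEnd ℂ (β.baseChange ℂ (1 ⊗ₜ y) ω) * l) = 0 := by
        linear_combination (starRingEnd ℂ l) * h1 - l * h2
      rcases mul_eq_zero.1 h4 with h | h
      · exact h
      · exact absurd (sub_eq_zero.1 h) hy
    have hr0 : r = 0 := by
      rw [hs0, zero_mul, add_zero] at h1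
      exact (mul_eq_zero.1 h1).resolve_right hx
    constructor
    · apply hS.irr f hf
      rw [hr, hr0, zero_smul]
    · apply hS.irr g hg
      rw [hs, hs0, zero_smul]

end Pool.Agent.Lib.MP0cb87d
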