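import Pool.Agent.Lib.MP_0cb87d_ag.HKI.Stmts
import Pool.Agent.Lib.MP_0cb87d_ag.F2
import Pool.Agent.Lib.MP_0cb87d_ag.F3

/-! Module R3: `H²` is spanned by transcendental and algebraic classes up to finite index. -/

set_option autoImplicit false

namespace Pool.Agent.Lib.MP0cb87d

open TensorProduct

namespace R3aux

open F2aux (conj_tmul one_tmul_eq_zero)

variable {n : ℕ} {N : GradedHodgeLattice}

/-- The algebraic classes in `H²`. -/
def NS (N : GradedHodgeLattice) : Submodule ℤ N.V := algebraic N.toHodgeLattice ⊓ N.deg 1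

/-- The form is nondegenerate on the algebraic classes. -/
theorem nondeg (h : Hyperkahler n N) (y : N.V) (hy : y ∈ NS N)
    (h0 : ∀ z ∈ NS N, h.q y z = 0) : y = 0 := by
  apply one_tmul_eq_zero N.toHodgeLattice
  by_contra hne
  have hq : ∀ z : N.V, h.q.baseChange ℂ (1 ⊗ₜ y) (1 ⊗ₜ z) = (h.q y z : ℂ) := by
    intro z
    rw [LinearMap.BilinForm.baseChange_tmul]
    simp
  have hmem : (1 : ℂ) ⊗ₜ[ℤ] y ∈ comp2 N 0 :=
    ⟨hy.1, Submodule.tmul_mem_baseChange_of_mem 1 hy.2⟩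
  have h1 := h.q_index _ hmem (fun z hz hz' => by rw [hq, h0 z ⟨hz, hz'⟩, Int.cast_zero]) hne
  rw [conj_tmul, map_one, hq, h0 y hy, Int.cast_zero, Complex.zero_re] at h1
  exact lt_irrefl _ h1

end R3aux

open R3aux in
theorem stR3 : StR3 := by
  intro n N h x hx
  have hNS : ∀ y : NS N, (∀ z : NS N, (h.q.restrict (NS N)) y z = 0) → y = 0 := by
    intro y hy
    exact Subtype.ext (nondeg h y y.2 fun z hz => hy ⟨z, hz⟩)
  obtain ⟨d, y, hd, hy⟩ := F3aux.exists_dual (h.q.restrict (NS N)) hNS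
    ((h.q x) ∘ₗ (NS N).subtype)
  have ht : d • x - (y : N.V) ∈ h.trans := by
    refine ⟨sub_mem (Submodule.smul_mem _ d hx) y.2.2, fun z hz hz' => ?_⟩
    have h1 : h.q y z = d * h.q x z := hy ⟨z, hz, hz'⟩
    rw [map_sub, map_smul, LinearMap.sub_apply, LinearMap.smul_apply, h1, smul_eq_mul, sub_self]
  exact ⟨d, ⟨_, ht⟩, y, hd, y.2.2, y.2.1, (sub_add_cancel _ _).symm⟩

end Pool.Agent.Lib.MP0cb87d
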