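import Pool.Agent.Lib.MP_0cb87d_ag.HKI.Stmts

/-! Module R4: adjointness. -/

set_option autoImplicit false

namespace Pool.Agent.Lib.MP0cb87d

open TensorProduct

theorem stR4 (hR3 : StR3) : StR4 := by
  intro n n' N N' h h' φ G g μ ν hfin hG hg hμν hadj y t
  obtain ⟨m, t', s', hm, hs1, hsa, heq⟩ := hR3 n' N' h' y y.2
  -- the algebraic part
  have hS : h.q (G ⟨s', hs1⟩) t = 0 := by
    have h1 : (1 : ℂ) ⊗ₜ[ℤ] ((G ⟨s', hs1⟩ : N.deg 1) : N.V) ∈ N.comp 0 := by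
      have h2 := hG 0 ((1 : ℂ) ⊗ₜ[ℤ] (⟨s', hs1⟩ : N'.deg 1)) hsa
      rw [LinearMap.baseChange_tmul] at h2
      exact h2
    rw [h.q_symm _ (G ⟨s', hs1⟩).2 _ t.2.1]
    exact t.2.2 _ h1 (G ⟨s', hs1⟩).2
  have hS' : h'.q s' (φ (g (φ t))) = 0 := by
    rw [h'.q_symm _ hs1 _ (φ (g (φ t))).2.1]
    exact (φ (g (φ t))).2.2 _ hsa hs1
  -- the transcendental part
  have hT : ν * h.q (G ⟨t', t'.2.1⟩) t = μ * h'.q t' (φ (g (φ t))) := by
    obtain ⟨M, x, hM, hx⟩ := hfin t'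
    have h1 : h.q (g (φ x)) t = M * h.q (G ⟨t', t'.2.1⟩) t := by
      rw [hx, map_smul, Submodule.coe_smul, hg, map_smul, LinearMap.smul_apply, smul_eq_mul]
    have h2 : h'.q (φ x) (φ (g (φ t))) = M * h'.q t' (φ (g (φ t))) := by
      rw [hx, Submodule.coe_smul, map_smul, LinearMap.smul_apply, smul_eq_mul]
    have h3 := hμν x (g (φ t))
    rw [h2, ← hadj x t, h1] at h3
    apply mul_left_cancel₀ hM
    linear_combination -h3
  have hy : m • y = (⟨t', t'.2.1⟩ : N'.deg 1) + ⟨s', hs1⟩ := Subtype.ext heq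
  have e1 : m * h.q (G y) t = h.q (G ⟨t', t'.2.1⟩) t := by
    have h4 : m * h.q (G y) t = h.q (G (m • y)) t := by
      rw [map_smul, Submodule.coe_smul, map_smul, LinearMap.smul_apply, smul_eq_mul]
    rw [h4, hy, map_add, Submodule.coe_add, map_add, LinearMap.add_apply, hS, add_zero]
  have e2 : m * h'.q y (φ (g (φ t))) = h'.q t' (φ (g (φ t))) := by
    have h4 : m * h'.q y (φ (g (φ t))) = h'.q ((m • y : N'.deg 1) : N'.V) (φ (g (φ t))) := by
      rw [Submodule.coe_smul, map_smul, LinearMap.smul_apply, smul_eq_mul]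
    rw [h4, hy, Submodule.coe_add, map_add, LinearMap.add_apply, hS', add_zero]
  apply mul_left_cancel₀ hm
  rw [← e1, ← e2] at hT
  linear_combination hT

end Pool.Agent.Lib.MP0cb87d
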