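import Pool.Agent.Lib.MP_0cb87d_ag.HKI.Stmts

/-! Functionals on the transcendental lattice. -/

namespace Pool.Agent.Lib.MP0cb87d

open TensorProduct

namespace R5aux

/-- Functionals on a saturated subgroup extend. -/
theorem exists_extend {V : Type} [AddCommGroup V] [Module.Finite ℤ V] (T : Submodule ℤ V)
    (hT : ∀ (m : ℤ) (x : V), m ≠ 0 → m • x ∈ T → x ∈ T) (l : T →+ ℤ) :
    ∃ l' : V →ₗ[ℤ] ℤ, ∀ t : T, l' t = l t := by
  have htf : Module.IsTorsionFree ℤ (V ⧸ T) := by
    rw [Module.isTorsionFree_iff_smul_eq_zero]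
    intro m x hx
    by_cases hm : m = 0
    · exact Or.inl hm
    · right
      obtain ⟨y, rfl⟩ := Submodule.mkQ_surjective T x
      rw [← map_smul, Submodule.mkQ_apply, Submodule.Quotient.mk_eq_zero] at hx
      rw [Submodule.mkQ_apply, Submodule.Quotient.mk_eq_zero]
      exact hT m y hm hx
  have hfree : Module.Free ℤ (V ⧸ T) := inferInstance
  obtain ⟨s, hs⟩ := Module.projective_lifting_property T.mkQ LinearMap.id
    (Submodule.mkQ_surjective T)
  have hmem : ∀ x : V, x - s (T.mkQ x) ∈ T := by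
    intro x
    rw [← Submodule.Quotient.mk_eq_zero, ← Submodule.mkQ_apply, map_sub]
    have := LinearMap.congr_fun hs (T.mkQ x)
    rw [LinearMap.comp_apply, LinearMap.id_apply] at this
    rw [this, sub_self]
  let P : V →ₗ[ℤ] T := LinearMap.codRestrict T (LinearMap.id - s ∘ₗ T.mkQ) hmem
  refine ⟨l.toIntLinearMap ∘ₗ P, fun t => ?_⟩
  have : P t = t := by
    apply Subtype.ext
    show (t : V) - s (T.mkQ t) = t
    have h0 : T.mkQ (t : V) = 0 := by
      rw [Submodule.mkQ_apply, Submodule.Quotient.mk_eq_zero]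
      exact t.2
    rw [h0, map_zero, sub_zero]
  rw [LinearMap.comp_apply, this]
  rfl

/-- The parts of a grading are saturated. -/
theorem deg_saturated (N : GradedHodgeLattice) (m : ℤ) (x : N.V) (hm : m ≠ 0)
    (hx : m • x ∈ N.deg 1) : x ∈ N.deg 1 := by
  obtain ⟨hind, htop⟩ :=
    (DirectSum.isInternal_submodule_iff_iSupIndep_and_iSup_eq_top N.deg).1 N.deg_internal
  have hsup : N.deg 1 ⊔ (⨆ j, ⨆ (_ : j ≠ 1), N.deg j) = ⊤ := by
    rw [eq_top_iff, ← htop]
    refine iSup_le fun j => ?_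
    by_cases hj : j = 1
    · rw [hj]
      exact le_sup_left
    · exact le_sup_of_le_right (le_iSup₂_of_le j hj le_rfl)
  obtain ⟨a, ha, b, hb, hab⟩ := Submodule.mem_sup.1 (hsup ▸ Submodule.mem_top : x ∈ _)
  have h1 : m • b ∈ N.deg 1 := by
    have : m • b = m • x - m • a := by
      rw [← hab, smul_add, add_sub_cancel_left]
    rw [this]
    exact sub_mem hx (Submodule.smul_mem _ m ha)
  have h2 : m • b ∈ ⨆ j, ⨆ (_ : j ≠ 1), N.deg j := Submodule.smul_mem _ m hb
  have h3 : m • b = 0 := Submodule.disjoint_def.1 (hind 1) _ h1 h2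
  have h4 : b = 0 := (smul_eq_zero.1 h3).resolve_left hm
  rw [← hab, h4, add_zero]
  exact ha

end R5aux

theorem stR5 : StR5 := by
  intro n N h ⟨l₀, hl₀⟩
  have hsat : ∀ (m : ℤ) (x : N.V), m ≠ 0 → m • x ∈ h.trans → x ∈ h.trans := by
    intro m x hm hx
    refine ⟨R5aux.deg_saturated N m x hm hx.1, fun y hy hy' => ?_⟩
    have := hx.2 y hy hy'
    rw [map_smul, LinearMap.smul_apply, smul_eq_mul] at this
    exact (mul_eq_zero.1 this).resolve_left hm
  refine ⟨(l₀ ∘ₗ h.trans.subtype).toAddMonoidHom, fun l => ?_⟩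
  obtain ⟨l', hl'⟩ := R5aux.exists_extend h.trans hsat l
  obtain ⟨x, hx, k, hk⟩ := hl₀ l'
  refine ⟨⟨x, hx⟩, k, fun t => ?_⟩
  rw [← hl', hk t t.2.1]
  rfl

end Pool.Agent.Lib.MP0cb87d
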