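import Pool.Agent.Lib.MP_0cb87d_ag.HKI.Stmts
import Pool.Agent.Lib.MP_0cb87d_ag.HK.N4
import Pool.Agent.Lib.MP_0cb87d_ag.HK.N1

/-! Module R7: if `ℤ` is the ring of multipliers, a Hodge map multiplies the form by a rational
number. -/

set_option autoImplicit false

namespace Pool.Agent.Lib.MP0cb87d

open TensorProduct

namespace R7aux

/-- The complexification of an injective map is injective. -/
theorem bc_injective {V W : Type} [AddCommGroup V] [AddCommGroup W] (f : V →ₗ[ℤ] W)
    (hf : Function.Injective f) : Function.Injective (f.baseChange ℂ) :=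
  Module.Flat.lTensor_preserves_injective_linearMap (M := ℂ) f hf

/-- Positivity of the form `q` on vectors of type `2`. -/
theorem pos_of_mem {n : ℕ} {N : GradedHodgeLattice} (h : Hyperkahler n N) (z : ℂ ⊗[ℤ] h.trans)
    (hz : inclS h.trans z ∈ N.comp 2) (h0 : z ≠ 0) :
    0 < (h.qT.baseChange ℂ z (conj _ z)).re := by
  rw [Hyperkahler.qT, N1aux.restrict_baseChange, N1aux.inclS_conj]
  refine h.q_pos _ ⟨hz, N1aux.inclS_trans_mem h z⟩ ?_
  intro h1
  exact h0 (N1aux.inclS_injective _ (by rw [h1, map_zero]))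

/-- A Hodge endomorphism with an integral multiplier is a multiple of the identity. -/
theorem eq_smul {X : HodgeLattice} {S : Submodule ℤ X.V} {β : LinearMap.BilinForm ℤ S} {k : ℤ}
    {ω : ℂ ⊗[ℤ] S} (hS : Source X S β k ω) (f : S →ₗ[ℤ] S) (hf : IsHodgeEnd X S f) (m : ℤ)
    (hm : f.baseChange ℂ ω = (m : ℂ) • ω) : f = m • LinearMap.id := by
  have hb : ∀ z : ℂ ⊗[ℤ] S, (f - m • LinearMap.id).baseChange ℂ z =
      f.baseChange ℂ z - (m : ℂ) • z := by
    intro z
    induction z using TensorProduct.induction_on with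
    | zero => simp
    | tmul a v =>
      simp only [LinearMap.baseChange_tmul, LinearMap.sub_apply, LinearMap.smul_apply,
        LinearMap.id_apply, TensorProduct.tmul_sub, TensorProduct.tmul_smul]
      rw [← Int.cast_smul_eq_zsmul ℂ]
    | add x y hx hy => rw [map_add, hx, hy, map_add, smul_add]; abel
  have h1 : f - m • LinearMap.id = 0 := by
    refine hS.irr _ ?_ ?_
    · intro j x hx
      rw [hb, map_sub, map_smul]
      exact Submodule.sub_mem _ (hf j x hx) (Submodule.smul_mem _ _ hx)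
    · rw [hb, hm, sub_self]
  exact sub_eq_zero.1 h1

end R7aux

open R7aux

theorem stR7 (hL1 : StL1) (_hN1 : StN1) : StR7 := by
  intro n n' N N' h h' φ hφ hinj σ hS hmult
  obtain ⟨-, -, -, hconjf, -, -, hcompl⟩ := stN5
  let b : LinearMap.BilinForm ℤ h.trans := h'.qT.compl₁₂ φ φ
  have hb : ∀ x y, b.baseChange ℂ x y = h'.qT.baseChange ℂ (φ.baseChange ℂ x)
      (φ.baseChange ℂ y) := fun x y => hcompl _ _ h'.qT φ φ x y
  have hbH : IsHodgeFormOn N.toHodgeLattice h.trans b := by
    intro k l hkl x y hx hy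
    rw [hb, Hyperkahler.qT, N1aux.restrict_baseChange]
    exact h'.q_orth k l hkl _ ⟨hφ k x hx, N1aux.inclS_trans_mem h' _⟩ _
      ⟨hφ l y hy, N1aux.inclS_trans_mem h' _⟩
  obtain ⟨⟨d, f, c, hd, hf, hfσ, hdb, hdσ⟩, -⟩ := hL1 _ _ _ _ _ hS b hbH
  have hc : c ∈ multS N.toHodgeLattice h.trans σ := ⟨f, hf, hfσ⟩
  rw [hmult] at hc
  obtain ⟨m, rfl⟩ := Subring.mem_bot.1 hc
  have hfm := eq_smul hS f hf m hfσ
  have hrel : ∀ s t : h.trans, d * h'.q (φ s) (φ t) = m * h.q s t := by
    intro s t
    have h1 := hdb s t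
    rw [hfm] at h1
    have h2 : h.qT ((m • LinearMap.id : h.trans →ₗ[ℤ] h.trans) s) t = m * h.q s t := by
      simp only [LinearMap.smul_apply, LinearMap.id_apply, map_smul, smul_eq_mul]
      rfl
    rw [h2] at h1
    exact h1
  -- positivity
  have hQ : 0 < (h.qT.baseChange ℂ σ (conj _ σ)).re := pos_of_mem h σ hS.mem hS.ne
  have hB : 0 < (b.baseChange ℂ σ (conj _ σ)).re := by
    rw [hb, ← hconjf]
    refine pos_of_mem h' _ (hφ 2 σ hS.mem) ?_
    intro h0
    exact hS.ne (bc_injective φ hinj (by rw [h0, map_zero]))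
  have hre : (d : ℝ) * (b.baseChange ℂ σ (conj _ σ)).re =
      (m : ℝ) * (h.qT.baseChange ℂ σ (conj _ σ)).re := by
    have h1 := congrArg Complex.re hdσ
    rw [← Complex.ofReal_intCast, ← Complex.ofReal_intCast, Complex.re_ofReal_mul,
      Complex.re_ofReal_mul] at h1
    exact h1
  rcases lt_or_gt_of_ne hd with h1 | h1
  · have hm : m < 0 := by
      have h2 : (d : ℝ) < 0 := by exact_mod_cast h1
      have h3 := mul_neg_of_neg_of_pos h2 hB
      rw [hre] at h3
      have h4 : (m : ℝ) < 0 := by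
        by_contra h5
        exact absurd h3 (not_lt.2 (mul_nonneg (not_lt.1 h5) hQ.le))
      exact_mod_cast h4
    refine ⟨-d, -m, by omega, by omega, fun s t => ?_⟩
    linear_combination -hrel s t
  · have hm : 0 < m := by
      have h2 : (0 : ℝ) < d := by exact_mod_cast h1
      have h3 := mul_pos h2 hB
      rw [hre] at h3
      have h4 : (0 : ℝ) < m := by
        by_contra h5
        exact absurd h3 (not_lt.2 (mul_nonpos_of_nonpos_of_nonneg (not_lt.1 h5) hQ.le))
      exact_mod_cast h4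
    exact ⟨d, m, h1, hm, hrel⟩

end Pool.Agent.Lib.MP0cb87d
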