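import Pool.Agent.Lib.MP_0cb87d_ag.HKI.Stmts

/-! Module Z: the proof of the integral theorem from the modules. -/

set_option autoImplicit false

namespace Pool.Agent.Lib.MP0cb87d

open TensorProduct

namespace Zaux

/-! ### The algebraic part -/

/-- The algebraic part of the proof. -/
theorem alg (hQ2 : StQ2) (hQ3 : StQ3) (hQ4 : StQ4)
    (R : Type) [CommRing R] [IsDomain R] [IsDedekindDomain R] [CharZero R]
    (T T' H H' : Type) [AddCommGroup T] [Module R T] [Module.Finite ℤ T] [Module.Free ℤ T]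
    [AddCommGroup T'] [Module R T'] [Module.Finite ℤ T'] [Module.Free ℤ T']
    (rk : ∃ x y : T, ∀ r s : R, r • x + s • y = 0 → r = 0 ∧ s = 0)
    (rk' : ∃ x y : T', ∀ r s : R, r • x + s • y = 0 → r = 0 ∧ s = 0)
    (tf : ∀ (r : R) (t : T), r • t = 0 → r = 0 ∨ t = 0)
    (tf' : ∀ (r : R) (t : T'), r • t = 0 → r = 0 ∨ t = 0)
    (φ : T →ₗ[R] T') (φ' : T' →ₗ[R] T) (s : ℕ) (f : Fin s → (T →+ T')) (g : Fin s → (T' →+ T))
    (a b : Fin s → R) (e : Fin s → Fin s → R) (M : ℕ) (hM : 0 < M)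
    (β : H → T → ℤ) (β' : H' → T' → ℤ) (F : Fin s → H → H') (G : Fin s → H' → H)
    (μ ν : ℤ) (hμ : 0 < μ) (hν : 0 < ν)
    (hφ'φ : ∀ t, φ' (φ t) = M • t) (hφφ' : ∀ t, φ (φ' t) = M • t)
    (hgφ : ∀ i t, g i (φ t) = b i • t) (hφ'f : ∀ i t, φ' (f i t) = a i • t)
    (hfφ' : ∀ i t, f i (φ' t) = a i • t) (hgf : ∀ i j t, g j (f i t) = e i j • t)
    (hsum : ∀ t, ∑ i, g i (f i t) = t)
    (hl' : ∃ l₀ : T' →+ ℤ, ∀ l : T' →+ ℤ, ∃ (y : H') (k : ℤ), ∀ t, l t = β' y t + k * l₀ t)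
    (hl : ∃ l₀ : T →+ ℤ, ∀ l : T →+ ℤ, ∃ (y : H) (k : ℤ), ∀ t, l t = β y t + k * l₀ t)
    (adj : ∀ i y t, ν * β (G i y) t = μ * β' y (φ (g i (φ t))))
    (adj' : ∀ i x t, ((M : ℤ) ^ 2 * μ) * β' (F i x) t = ν * β x (φ' (f i (φ' t))))
    (hcase : (∃ r : ℕ, 0 < r ∧ ν = μ * r ^ 2) ∨ (∀ c : R, ∃ z : ℤ, c = z)) :
    ∃ r : ℕ, 0 < r ∧ ν = μ * r ^ 2 ∧ (∀ t, ∃ t', φ t = r • t') ∧ (∀ t', ∃ t, φ t = r • t') := by
  obtain ⟨l₁, hl₁⟩ := hl'
  obtain ⟨l₂, hl₂⟩ := hl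
  obtain ⟨x₀, y₀, hxy⟩ := rk
  have hx₀ : x₀ ≠ 0 := by
    rintro rfl
    exact one_ne_zero (hxy 1 0 (by simp)).1
  -- the divisibilities
  have d1 : ∀ i j, (ν : R) ∣ (μ : R) * b i * b j := fun i j =>
    hQ2 R T T' H H' ⟨x₀, y₀, hxy⟩ tf φ.toAddMonoidHom (g i) (g j) (b i) (b j) β β' (G i) μ ν l₁
      hν.ne' (hgφ i) (hgφ j) hl₁ (adj i)
  have d2 : ∀ i j, ((M : R) ^ 2 * μ) ∣ (ν : R) * a i * a j := fun i j => by
    have h := hQ2 R T' T H' H rk' tf' φ'.toAddMonoidHom (f i) (f j) (a i) (a j) β' β (F i) ν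
      ((M : ℤ) ^ 2 * μ) l₂ (by positivity) (hfφ' i) (hfφ' j) hl₂ (adj' i)
    push_cast at h
    exact h
  -- products of multipliers
  have tf2 : ∀ (c d : R), c • x₀ = d • x₀ → c = d := by
    intro c d h
    have h1 : (c - d) • x₀ = 0 := by rw [sub_smul, h, sub_self]
    rcases tf _ _ h1 with h2 | h2
    · exact sub_eq_zero.1 h2
    · exact absurd h2 hx₀
  have hab : ∀ i j, a i * b j = M * e i j := by
    intro i j
    apply tf2
    have h1 : φ (φ' (f i x₀)) = M • f i x₀ := hφφ' _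
    calc (a i * b j) • x₀ = b j • a i • x₀ := by rw [mul_comm, mul_smul]
      _ = g j (φ (a i • x₀)) := (hgφ j _).symm
      _ = g j (φ (φ' (f i x₀))) := by rw [hφ'f]
      _ = M • g j (f i x₀) := by rw [h1, map_nsmul]
      _ = M • e i j • x₀ := by rw [hgf]
      _ = ((M : R) * e i j) • x₀ := by rw [mul_smul, Nat.cast_smul_eq_nsmul]
  have he : ∑ i, e i i = 1 := by
    apply tf2
    rw [Finset.sum_smul, one_smul]
    conv_rhs => rw [← hsum x₀]
    exact Finset.sum_congr rfl fun i _ => (hgf i i x₀).symm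
  -- the number `r`
  obtain ⟨r, hr, hνr⟩ : ∃ r : ℕ, 0 < r ∧ ν = μ * r ^ 2 := by
    rcases hcase with h | h
    · exact h
    choose z hz using h
    have zinj : ∀ u v : ℤ, (u : R) = v → u = v := fun u v h => by exact_mod_cast h
    have zdvd : ∀ u v : ℤ, (u : R) ∣ v → u ∣ v := by
      rintro u v ⟨c, hc⟩
      refine ⟨z c, zinj _ _ ?_⟩
      rw [hc]
      push_cast
      rw [← hz c]
    refine hQ4 s (fun i => z (a i)) (fun i => z (b i)) M μ ν (by exact_mod_cast hM) hμ hν ?_ ?_ ?_ ?_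
    · apply zinj
      push_cast
      rw [← mul_one (M : R), ← he, Finset.mul_sum]
      refine Finset.sum_congr rfl fun i _ => ?_
      rw [← hz, ← hz, hab]
    · intro i j
      apply zdvd
      push_cast
      rw [← hz, ← hz, hab]
      exact dvd_mul_right _ _
    · intro i j
      apply zdvd
      push_cast
      rw [← hz, ← hz]
      exact d1 i j
    · intro i j
      apply zdvd
      push_cast
      rw [← hz, ← hz]
      exact d2 i j
  have hμ0 : (μ : R) ≠ 0 := by exact_mod_cast hμ.ne'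
  have hνR : (ν : R) = μ * (r : R) ^ 2 := by
    rw [hνr]
    push_cast
    ring
  refine ⟨r, hr, hνr, ?_⟩
  refine hQ3 R T T' tf tf' ⟨x₀, hx₀⟩ φ φ' s f g a b M r hM hr hφ'φ hφφ' hgφ hφ'f hsum ?_ ?_
  · intro i
    obtain ⟨c, hc⟩ := d1 i i
    refine ⟨c, mul_left_cancel₀ hμ0 ?_⟩
    rw [hνR] at hc
    linear_combination hc
  · intro i
    obtain ⟨c, hc⟩ := d2 i i
    refine ⟨c, mul_left_cancel₀ hμ0 ?_⟩
    rw [hνR] at hc
    linear_combination hc

/-! ### General facts on Hodge maps -/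

section Gen

variable {X Y Z : HodgeLattice} {S : Submodule ℤ X.V} {S' : Submodule ℤ Y.V}
  {S'' : Submodule ℤ Z.V}

theorem hcomp {f : S →ₗ[ℤ] S'} {g : S' →ₗ[ℤ] S''} (hf : IsHodgeSub X Y S S' f)
    (hg : IsHodgeSub Y Z S' S'' g) : IsHodgeSub X Z S S'' (g ∘ₗ f) := fun k z hz => by
  rw [LinearMap.baseChange_comp, LinearMap.comp_apply]
  exact hg k _ (hf k z hz)

theorem hsum {s : ℕ} {f : Fin s → (S →ₗ[ℤ] S')} (hf : ∀ i, IsHodgeSub X Y S S' (f i)) :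
    IsHodgeSub X Y S S' (∑ i, f i) := by
  refine Finset.sum_induction f (fun g => IsHodgeSub X Y S S' g) ?_ ?_ fun i _ => hf i
  · intro g g' hg hg' k z hz
    rw [LinearMap.baseChange_add, LinearMap.add_apply, map_add]
    exact add_mem (hg k z hz) (hg' k z hz)
  · intro k z hz
    rw [LinearMap.baseChange_zero, LinearMap.zero_apply, map_zero]
    exact zero_mem _

theorem bc_comp {f : S →ₗ[ℤ] S'} {g : S' →ₗ[ℤ] S''} {σ : ℂ ⊗[ℤ] S} {σ' : ℂ ⊗[ℤ] S'}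
    {σ'' : ℂ ⊗[ℤ] S''} {c d : ℂ} (hf : f.baseChange ℂ σ = c • σ')
    (hg : g.baseChange ℂ σ' = d • σ'') : (g ∘ₗ f).baseChange ℂ σ = (c * d) • σ'' := by
  rw [LinearMap.baseChange_comp, LinearMap.comp_apply, hf, map_smul, hg, smul_smul]

theorem bc_sum {s : ℕ} (f : Fin s → (S →ₗ[ℤ] S')) (σ : ℂ ⊗[ℤ] S) :
    (∑ i, f i).baseChange ℂ σ = ∑ i, (f i).baseChange ℂ σ := by
  have h : (∑ i, f i).baseChange ℂ = ∑ i, (f i).baseChange ℂ :=
    map_sum (LinearMap.baseChangeHom ℤ ℂ S S') f _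
  rw [h, LinearMap.sum_apply]

theorem bc_smul (f : S →ₗ[ℤ] S') (m : ℤ) (σ : ℂ ⊗[ℤ] S) :
    (m • f).baseChange ℂ σ = (m : ℂ) • f.baseChange ℂ σ := by
  rw [LinearMap.baseChange_smul, LinearMap.smul_apply, Int.cast_smul_eq_zsmul]

theorem div_hodge {f g : S →ₗ[ℤ] S'} {m : ℤ} (hm : m ≠ 0) (h : ∀ t, f t = m • g t)
    (hf : IsHodgeSub X Y S S' f) : IsHodgeSub X Y S S' g := by
  intro k z hz
  have h1 : f = m • g := LinearMap.ext h
  have h2 := hf k z hz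
  rw [h1, bc_smul, map_smul] at h2
  have hm' : (m : ℂ) ≠ 0 := by exact_mod_cast hm
  have h3 := Submodule.smul_mem _ ((m : ℂ)⁻¹) h2
  rwa [inv_smul_smul₀ hm'] at h3

theorem mult {f : S →ₗ[ℤ] S'} (hf : IsHodgeSub X Y S S' f) {β : LinearMap.BilinForm ℤ S}
    {β' : LinearMap.BilinForm ℤ S'} {k : ℤ} {σ : ℂ ⊗[ℤ] S} {σ' : ℂ ⊗[ℤ] S'}
    (hS : Source X S β k σ) (hS' : Source Y S' β' k σ') : ∃ c : ℂ, f.baseChange ℂ σ = c • σ' :=
  hS'.line _ (hf k σ hS.mem)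

end Gen

/-! ### The last step -/

theorem cancel {V : Type} [AddCommGroup V] [Module.Free ℤ V] (S : Submodule ℤ V) {r : ℕ}
    (hr : 0 < r) {x y : S} (h : r • x = r • y) : x = y := by
  have h1 : (r : ℤ) • (x - y) = 0 := by
    rw [smul_sub, natCast_zsmul, natCast_zsmul, h, sub_self]
  have h2 : (r : ℤ) • ((x - y : S) : V) = 0 := by
    have := congrArg (Subtype.val : S → V) h1
    simpa using this
  rcases smul_eq_zero.1 h2 with h3 | h3
  · exact absurd h3 (by exact_mod_cast hr.ne')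
  · exact sub_eq_zero.1 (Subtype.ext h3)

theorem iso (hR6 : StR6) {n n' : ℕ} {N N' : GradedHodgeLattice} (hX : Hyperkahler n N)
    (hY : Hyperkahler n' N') (φ : hX.trans →ₗ[ℤ] hY.trans)
    (hφ : IsHodgeSub N.toHodgeLattice N'.toHodgeLattice hX.trans hY.trans φ)
    (inj : Function.Injective φ) (r : ℕ) (hr : 0 < r) (μ ν : ℤ) (hμ : 0 < μ) (hν : ν = μ * r ^ 2)
    (hq : ∀ s t : hX.trans, μ * hY.q (φ s) (φ t) = ν * hX.q s t)
    (h1 : ∀ t, ∃ t', φ t = r • t') (h2 : ∀ t', ∃ t, φ t = r • t') : IntIsometric hX hY := by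
  choose e he using h1
  let e₀ : hX.trans →ₗ[ℤ] hY.trans :=
    { toFun := e
      map_add' := fun s t => cancel hY.trans hr (by
        rw [smul_add, ← he, ← he, ← he, map_add])
      map_smul' := fun c t => cancel hY.trans hr (by
        rw [← he, map_smul, he, RingHom.id_apply, smul_comm]) }
  have he₀ : ∀ t, φ t = (r : ℤ) • e₀ t := fun t => by
    rw [natCast_zsmul]
    exact he t
  have hr' : (r : ℤ) ≠ 0 := by exact_mod_cast hr.ne'
  have einj : Function.Injective e₀ := by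
    intro s t h
    apply inj
    rw [he₀, he₀, h]
  have esurj : Function.Surjective e₀ := by
    intro t'
    obtain ⟨t, ht⟩ := h2 t'
    exact ⟨t, cancel hY.trans hr ((he t).symm.trans ht)⟩
  have eH : IsHodgeSub N.toHodgeLattice N'.toHodgeLattice hX.trans hY.trans e₀ :=
    div_hodge hr' he₀ hφ
  let E : hX.trans ≃ₗ[ℤ] hY.trans := LinearEquiv.ofBijective e₀ ⟨einj, esurj⟩
  have hE : ∀ t, E t = e₀ t := fun t => rfl
  refine ⟨E, eH, ?_, ?_⟩
  · obtain ⟨m, ψ, hm, hψ, hψ1, -⟩ := hR6 n n' N N' hX hY e₀ eH einj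
      ⟨1, one_pos, fun y => by
        obtain ⟨x, hx⟩ := esurj y
        exact ⟨x, by rw [hx, one_smul]⟩⟩
    refine div_hodge (m := (m : ℤ)) (by exact_mod_cast hm.ne') (fun t => ?_) hψ
    have h3 := hψ1 (E.symm t)
    rw [← hE, LinearEquiv.apply_symm_apply] at h3
    rw [h3, natCast_zsmul]
    rfl
  · intro s t
    have h3 := hq s t
    rw [he₀ s, he₀ t] at h3
    have h4 : hY.q (((r : ℤ) • e₀ s : hY.trans) : N'.V) (((r : ℤ) • e₀ t : hY.trans) : N'.V) =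
        (r : ℤ) ^ 2 * hY.q (e₀ s) (e₀ t) := by
      rw [Submodule.coe_smul, Submodule.coe_smul, map_smul, map_smul, LinearMap.smul_apply,
        smul_eq_mul, smul_eq_mul]
      ring
    rw [h4, hν] at h3
    have h5 : μ * (r : ℤ) ^ 2 ≠ 0 := mul_ne_zero hμ.ne' (pow_ne_zero 2 hr')
    rw [hE, hE]
    apply mul_left_cancel₀ h5
    linear_combination h3

/-! ### The Hodge map -/

theorem exists_phi (hHK : HKStatement) (hM1 : StM1) (hN2 : StN2) (hR7 : StR7)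
    {C : GradedEvenCohomology} {X Y : C.Var} {n : ℕ} (hX : Hyperkahler n (C.H X))
    (hY : Hyperkahler n (C.H Y)) (hL : C.LEquivalent X Y) (hc : hX.c = hY.c)
    (σ : ℂ ⊗[ℤ] hX.trans) (hS : Source (C.H X).toHodgeLattice hX.trans hX.qT 2 σ)
    (hcase : Odd n ∨ multS (C.H X).toHodgeLattice hX.trans σ = ⊥) :
    ∃ (φ : hX.trans →ₗ[ℤ] hY.trans) (μ ν : ℤ),
      IsHodgeSub (C.H X).toHodgeLattice (C.H Y).toHodgeLattice hX.trans hY.trans φ ∧
      Function.Injective φ ∧ (∃ m : ℕ, 0 < m ∧ ∀ y : hY.trans, ∃ x : hX.trans, φ x = m • y) ∧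
      0 < μ ∧ 0 < ν ∧ (∀ s t : hX.trans, μ * hY.q (φ s) (φ t) = ν * hX.q s t) ∧
      ((∃ r : ℕ, 0 < r ∧ ν = μ * r ^ 2) ∨ multS (C.H X).toHodgeLattice hX.trans σ = ⊥) := by
  rcases hcase with hodd | hbot
  · obtain ⟨r, φ, hr, hφ, inj, fin, hq⟩ := hHK C X Y n hodd hX hY hL
    refine ⟨φ, 1, (r : ℤ) ^ 2, hφ, inj, fin, one_pos, by positivity, fun s t => ?_,
      Or.inl ⟨r, hr, by ring⟩⟩
    have h1 := hq s t
    rw [hc] at h1
    have h2 : (hY.c : ℚ) ≠ 0 := hY.c_pos.ne'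
    have h3 : ((hY.q (φ s) (φ t) : ℤ) : ℚ) = ((((r : ℤ) ^ 2 * hX.q s t : ℤ)) : ℚ) := by
      apply mul_left_cancel₀ h2
      push_cast
      linear_combination h1
    rw [one_mul]
    exact_mod_cast h3
  · have hle : hX.trans ≤ (C.H X).deg 1 := fun x hx => hx.1
    obtain ⟨f, hf, hf1, hfσ⟩ := hM1 C X Y hL hX.trans hle 2 σ hS.ne hS.mem
    have hf0 : f ≠ 0 := by
      rintro rfl
      exact hfσ (by simp)
    obtain ⟨φ, hφf, inj, fin⟩ := hN2 n n (C.H X) (C.H Y) hX hY f hf hf1 hf0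
    have hφ : IsHodgeSub (C.H X).toHodgeLattice (C.H Y).toHodgeLattice hX.trans hY.trans φ := by
      intro k z hz
      have h1 : f = hY.trans.subtype ∘ₗ φ := LinearMap.ext fun t => (hφf t).symm
      have h2 := hf k z hz
      rw [h1, LinearMap.baseChange_comp] at h2
      exact h2
    obtain ⟨μ, ν, hμ, hν, hq⟩ := hR7 n n (C.H X) (C.H Y) hX hY φ hφ inj σ hS hbot
    exact ⟨φ, μ, ν, hφ, inj, fin, hμ, hν, hq, Or.inr hbot⟩

/-- The ring of multipliers is a Dedekind domain if it is integrally closed. -/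
theorem dedekind (hL2 : StL2) {X : HodgeLattice} {S : Submodule ℤ X.V}
    {β : LinearMap.BilinForm ℤ S} {k : ℤ} {ω : ℂ ⊗[ℤ] S} (hS : Source X S β k ω)
    (hcl : IsIntegrallyClosed (multS X S ω)) : IsDedekindDomain (multS X S ω) := by
  have h := (hL2 X S β k ω hS).1
  have hfin : Module.Finite ℤ (multS X S ω) := by
    rw [← AddSubgroup.toIntSubmodule_toAddSubgroup (multS X S ω).toAddSubgroup,
      ← Submodule.fg_iff_addSubgroup_fg] at h
    exact Module.Finite.iff_fg.2 h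
  have hint : Algebra.IsIntegral ℤ (multS X S ω) := Algebra.IsIntegral.of_finite ℤ _
  have hnoeth : IsNoetherianRing (multS X S ω) := by
    have : IsNoetherian ℤ (multS X S ω) := inferInstance
    exact isNoetherian_of_tower ℤ this
  have hdim : Ring.DimensionLEOne (multS X S ω) := Ring.DimensionLEOne.of_isIntegral ℤ _
  exact { hnoeth, hdim, hcl with }

theorem uniq {X : HodgeLattice} {S : Submodule ℤ X.V}
    {β : LinearMap.BilinForm ℤ S} {k : ℤ} {ω : ℂ ⊗[ℤ] S} (h : Source X S β k ω)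
    {f g : S →ₗ[ℤ] S} (hf : IsHodgeEnd X S f) (hg : IsHodgeEnd X S g) {c : ℂ}
    (hfc : f.baseChange ℂ ω = c • ω) (hgc : g.baseChange ℂ ω = c • ω) : f = g := by
  have h1 := h.irr (f - g) (fun k x hx => by
    rw [LinearMap.baseChange_sub, LinearMap.sub_apply, map_sub]
    exact (X.comp k).sub_mem (hf k x hx) (hg k x hx)) (by
    rw [LinearMap.baseChange_sub, LinearMap.sub_apply, hfc, hgc, sub_self])
  exact sub_eq_zero.1 h1

theorem uniq2 {X Y : HodgeLattice} {S : Submodule ℤ X.V} {S' : Submodule ℤ Y.V}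
    {σ : ℂ ⊗[ℤ] S} {σ' : ℂ ⊗[ℤ] S'} (hk : ∀ f : S →ₗ[ℤ] S', f.baseChange ℂ σ = 0 → f = 0)
    {f g : S →ₗ[ℤ] S'} {c d : ℂ} (hf : f.baseChange ℂ σ = c • σ') (hg : g.baseChange ℂ σ = d • σ')
    (hcd : c = d) : f = g := by
  have h1 := hk (f - g) (by
    rw [LinearMap.baseChange_sub, LinearMap.sub_apply, hf, hg, hcd, sub_self])
  exact sub_eq_zero.1 h1

end Zaux

open Zaux

theorem stZ (hHK : HKStatement) (hM1 : StM1) (hN1 : StN1) (hN2 : StN2) (hL1 : StL1) (hL2 : StL2)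
    (hP3 : StP3) (hR1 : StR1) (hR2 : StR2) (hR4 : StR4) (hR5 : StR5) (hR6 : StR6) (hR7 : StR7)
    (hQ2 : StQ2) (hQ3 : StQ3) (hQ4 : StQ4) : HKIntStatement := by
  have _ := hL1
  intro C X Y n hX hY hL hc hcX hcY σ hS hcl hreal hcase
  obtain ⟨φ, μ, ν, hφ, φinj, φfin, hμ, hν, hq, hcase'⟩ :=
    exists_phi hHK hM1 hN2 hR7 hX hY hL hc σ hS hcase
  obtain ⟨σ₀, hS₀, -, hk₀, hn₀, -⟩ := hN1 n (C.H X) hX
  obtain ⟨σ', hS', -, hk', hn', -⟩ := hN1 n (C.H Y) hY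
  obtain ⟨c₀, hc₀⟩ := hS₀.line σ hS.mem
  have hc₀' : c₀ ≠ 0 := by
    rintro rfl
    exact hS.ne (by rw [hc₀, zero_smul])
  have hk : ∀ f : hX.trans →ₗ[ℤ] hY.trans, f.baseChange ℂ σ = 0 → f = 0 := by
    intro f hf
    apply hk₀
    rw [hc₀, map_smul] at hf
    exact (smul_eq_zero.1 hf).resolve_left hc₀'
  have hk2 : ∀ f : hY.trans →ₗ[ℤ] hX.trans, f.baseChange ℂ σ' = 0 → f = 0 := fun f hf =>
    hk' _ f hf
  have hn : ∀ t : hX.trans, hX.qT.baseChange ℂ (1 ⊗ₜ t) σ = 0 → t = 0 := by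
    intro t ht
    apply hn₀
    rw [hc₀, map_smul] at ht
    exact (smul_eq_zero.1 ht).resolve_left hc₀'
  obtain ⟨M, φ', hM, hφ', hφ'φ, hφφ'⟩ := hR6 n n _ _ hX hY φ hφ φinj φfin
  obtain ⟨s, F, G, f, g, hF, hG, hf, hg, hfF, hgG, hsm⟩ := hP3 C X Y n hX hY hL
  obtain ⟨ε, hε⟩ := mult hφ hS hS'
  obtain ⟨ε', hε'⟩ := mult hφ' hS' hS
  choose γ hγ using fun i => mult (hf i) hS hS'
  choose δ hδ using fun i => mult (hg i) hS' hS
  have cσ : ∀ {c d : ℂ}, c • σ = d • σ → c = d := by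
    intro c d h
    have h1 : (c - d) • σ = 0 := by rw [sub_smul, h, sub_self]
    exact sub_eq_zero.1 ((smul_eq_zero.1 h1).resolve_right hS.ne)
  have hγδ : ∑ i, γ i * δ i = 1 := by
    apply cσ
    have h1 : (∑ i, g i ∘ₗ f i) = LinearMap.id := LinearMap.ext fun t => by
      rw [LinearMap.sum_apply]
      exact hsm t
    have h2 := bc_sum (fun i => g i ∘ₗ f i) σ
    rw [h1, LinearMap.baseChange_id] at h2
    rw [one_smul, Finset.sum_smul]
    refine Eq.trans (Finset.sum_congr rfl fun i _ => ?_) h2.symm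
    exact (bc_comp (hγ i) (hδ i)).symm
  have hεε' : ε * ε' = M := by
    apply cσ
    rw [← bc_comp hε hε']
    have h1 : φ' ∘ₗ φ = (M : ℤ) • LinearMap.id := LinearMap.ext fun t => by
      rw [LinearMap.comp_apply, hφ'φ, LinearMap.smul_apply, LinearMap.id_apply, natCast_zsmul]
    rw [h1, bc_smul, LinearMap.baseChange_id, LinearMap.id_apply]
    push_cast
    rfl
  obtain ⟨ρ, hρ⟩ := hR1 _ hX.trans hX.qT 2 σ hS
  obtain ⟨ρ', hρ'⟩ := hR1 _ hY.trans hY.qT 2 σ' hS'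
  have hle : multS (C.H X).toHodgeLattice hX.trans σ ≤
      multS (C.H Y).toHodgeLattice hY.trans σ' := by
    rintro c ⟨h, hh, hhc⟩
    refine ⟨∑ i, f i ∘ₗ h ∘ₗ g i, hsum fun i => hcomp (hcomp (hg i) hh) (hf i), ?_⟩
    rw [bc_sum]
    have h1 : ∀ i, (f i ∘ₗ h ∘ₗ g i).baseChange ℂ σ' = (c * (γ i * δ i)) • σ' := fun i => by
      rw [bc_comp (bc_comp (hδ i) hhc) (hγ i)]
      congr 1
      ring
    rw [Finset.sum_congr rfl fun i _ => h1 i, ← Finset.sum_smul, ← Finset.mul_sum, hγδ, mul_one]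
  have hM0 : (M : ℂ) ≠ 0 := by exact_mod_cast hM.ne'
  have hreal' : ∀ c ∈ multS (C.H Y).toHodgeLattice hY.trans σ', starRingEnd ℂ c = c := by
    rintro c ⟨h, hh, hhc⟩
    have h1 : (M : ℂ) * c ∈ multS (C.H X).toHodgeLattice hX.trans σ :=
      ⟨φ' ∘ₗ h ∘ₗ φ, hcomp (hcomp hφ hh) hφ', by
        rw [bc_comp (bc_comp hε hhc) hε']
        congr 1
        linear_combination c * hεε'⟩
    have h2 := hreal _ h1
    rw [map_mul, Complex.conj_natCast] at h2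
    exact mul_left_cancel₀ hM0 h2
  obtain ⟨sa, tfR, x₁, y₁, rkR⟩ := hR2 _ _ _ 2 σ two_pos hS hn hreal
  obtain ⟨sa', tfR', x₂, y₂, rkR'⟩ := hR2 _ _ _ 2 σ' two_pos hS' hn' hreal'
  have hded := dedekind hL2 hS hcl
  -- the actions
  let ρ'' : multS (C.H X).toHodgeLattice hX.trans σ →+* Module.End ℤ hY.trans :=
    ρ'.comp (Subring.inclusion hle)
  have hρ'' : ∀ c, IsHodgeEnd (C.H Y).toHodgeLattice hY.trans (ρ'' c) ∧
      (ρ'' c).baseChange ℂ σ' = (c : ℂ) • σ' := fun c => hρ' (Subring.inclusion hle c)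
  let _ : Module (multS (C.H X).toHodgeLattice hX.trans σ) hX.trans := Module.compHom hX.trans ρ
  let _ : Module (multS (C.H X).toHodgeLattice hX.trans σ) hY.trans := Module.compHom hY.trans ρ''
  have sm : ∀ (c : multS (C.H X).toHodgeLattice hX.trans σ) (t : hX.trans), c • t = ρ c t :=
    fun _ _ => rfl
  have sm' : ∀ (c : multS (C.H X).toHodgeLattice hX.trans σ) (t : hY.trans), c • t = ρ'' c t :=
    fun _ _ => rfl
  have zero_of : ∀ c : multS (C.H X).toHodgeLattice hX.trans σ, ρ c = 0 → c = 0 := by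
    intro c h
    have h1 := (hρ c).2
    rw [h, LinearMap.baseChange_zero, LinearMap.zero_apply] at h1
    exact Subtype.ext ((smul_eq_zero.1 h1.symm).resolve_right hS.ne)
  have zero_of' : ∀ c : multS (C.H X).toHodgeLattice hX.trans σ, ρ'' c = 0 → c = 0 := by
    intro c h
    have h1 := (hρ'' c).2
    rw [h, LinearMap.baseChange_zero, LinearMap.zero_apply] at h1
    exact Subtype.ext ((smul_eq_zero.1 h1.symm).resolve_right hS'.ne)
  let φR : hX.trans →ₗ[multS (C.H X).toHodgeLattice hX.trans σ] hY.trans :=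
    { toFun := φ
      map_add' := map_add φ
      map_smul' := fun c t => by
        have h1 : φ ∘ₗ ρ c = ρ'' c ∘ₗ φ :=
          uniq2 hk (bc_comp (hρ c).2 hε) (bc_comp hε (hρ'' c).2) (mul_comm _ _)
        exact LinearMap.congr_fun h1 t }
  let φ'R : hY.trans →ₗ[multS (C.H X).toHodgeLattice hX.trans σ] hX.trans :=
    { toFun := φ'
      map_add' := map_add φ'
      map_smul' := fun c t => by
        have h1 : φ' ∘ₗ ρ'' c = ρ c ∘ₗ φ' :=
          uniq2 hk2 (bc_comp (hρ'' c).2 hε') (bc_comp hε' (hρ c).2) (mul_comm _ _)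
        exact LinearMap.congr_fun h1 t }
  let a : Fin s → multS (C.H X).toHodgeLattice hX.trans σ := fun i =>
    ⟨γ i * ε', φ' ∘ₗ f i, hcomp (hf i) hφ', bc_comp (hγ i) hε'⟩
  let b : Fin s → multS (C.H X).toHodgeLattice hX.trans σ := fun i =>
    ⟨ε * δ i, g i ∘ₗ φ, hcomp hφ (hg i), bc_comp hε (hδ i)⟩
  let e : Fin s → Fin s → multS (C.H X).toHodgeLattice hX.trans σ := fun i j =>
    ⟨γ i * δ j, g j ∘ₗ f i, hcomp (hf i) (hg j), bc_comp (hγ i) (hδ j)⟩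
  have ha : ∀ i t, φ' (f i t) = a i • t := fun i t => LinearMap.congr_fun
    (uniq hS (hcomp (hf i) hφ') (hρ (a i)).1 (bc_comp (hγ i) hε') (hρ (a i)).2) t
  have ha' : ∀ i t, f i (φ' t) = a i • t := fun i t => LinearMap.congr_fun
    (uniq hS' (hcomp hφ' (hf i)) (hρ'' (a i)).1
      ((bc_comp hε' (hγ i)).trans (by rw [mul_comm])) (hρ'' (a i)).2) t
  have hb : ∀ i t, g i (φ t) = b i • t := fun i t => LinearMap.congr_fun
    (uniq hS (hcomp hφ (hg i)) (hρ (b i)).1 (bc_comp hε (hδ i)) (hρ (b i)).2) t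
  have he : ∀ i j t, g j (f i t) = e i j • t := fun i j t => LinearMap.congr_fun
    (uniq hS (hcomp (hf i) (hg j)) (hρ (e i j)).1 (bc_comp (hγ i) (hδ j)) (hρ (e i j)).2) t
  have hq' : ∀ s t : hY.trans, ν * hX.q (φ' s) (φ' t) = ((M : ℤ) ^ 2 * μ) * hY.q s t := by
    intro s t
    have h1 := hq (φ' s) (φ' t)
    rw [hφφ', hφφ'] at h1
    have h2 : hY.q ((M • s : hY.trans) : (C.H Y).V) ((M • t : hY.trans) : (C.H Y).V) =
        (M : ℤ) ^ 2 * hY.q s t := by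
      rw [← natCast_zsmul, ← natCast_zsmul, Submodule.coe_smul, Submodule.coe_smul, map_smul,
        map_smul, LinearMap.smul_apply, smul_eq_mul, smul_eq_mul]
      ring
    rw [h2] at h1
    linear_combination -h1
  obtain ⟨r, hr, hνr, e1, e2⟩ := alg hQ2 hQ3 hQ4 (multS (C.H X).toHodgeLattice hX.trans σ)
    hX.trans hY.trans ((C.H X).deg 1) ((C.H Y).deg 1)
    ⟨x₁, y₁, fun c d h => by
      have h1 := rkR (ρ c) (ρ d) (hρ c).1 (hρ d).1 h
      exact ⟨zero_of c h1.1, zero_of d h1.2⟩⟩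
    ⟨x₂, y₂, fun c d h => by
      have h1 := rkR' (ρ'' c) (ρ'' d) (hρ'' c).1 (hρ'' d).1 h
      exact ⟨zero_of' c h1.1, zero_of' d h1.2⟩⟩
    (fun c t h => (tfR (ρ c) (hρ c).1 t h).imp (zero_of c) id)
    (fun c t h => (tfR' (ρ'' c) (hρ'' c).1 t h).imp (zero_of' c) id)
    φR φ'R s (fun i => (f i).toAddMonoidHom) (fun i => (g i).toAddMonoidHom) a b e M hM
    (fun x t => hX.q x t) (fun y t => hY.q y t) (fun i => F i) (fun i => G i) μ ν hμ hν
    hφ'φ hφφ' hb ha ha' he hsm (hR5 n _ hY hcY) (hR5 n _ hX hcX)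
    (fun i => hR4 n n _ _ hX hY φ (G i) (g i) μ ν (fun y => by
      obtain ⟨m, hm, h⟩ := φfin
      obtain ⟨x, hx⟩ := h y
      exact ⟨m, x, by exact_mod_cast hm.ne', by rw [hx, natCast_zsmul]⟩) (hG i) (hgG i) hq
      (sa (g i ∘ₗ φ) (hcomp hφ (hg i))))
    (fun i => hR4 n n _ _ hY hX φ' (F i) (f i) ν ((M : ℤ) ^ 2 * μ) (fun y =>
      ⟨M, φ y, by exact_mod_cast hM.ne', by rw [hφ'φ, natCast_zsmul]⟩) (hF i) (hfF i) hq'
      (sa' (f i ∘ₗ φ') (hcomp hφ' (hf i))))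
    (hcase'.imp id fun h c => by
      have h1 : (c : ℂ) ∈ (⊥ : Subring ℂ) := h ▸ c.2
      obtain ⟨z, hz⟩ := Subring.mem_bot.1 h1
      exact ⟨z, Subtype.ext (by rw [← hz]; simp)⟩)
  exact iso hR6 hX hY φ hφ φinj r hr μ ν hμ hνr hq e1 e2

end Pool.Agent.Lib.MP0cb87d
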