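import Pool.Agent.Lib.MP_0cb87d_ag.HK.Final
import Pool.Agent.Lib.MP_0cb87d_ag.HKI.P1
import Pool.Agent.Lib.MP_0cb87d_ag.HKI.P2
import Pool.Agent.Lib.MP_0cb87d_ag.HKI.P3
import Pool.Agent.Lib.MP_0cb87d_ag.HKI.R1
import Pool.Agent.Lib.MP_0cb87d_ag.HKI.R2
import Pool.Agent.Lib.MP_0cb87d_ag.HKI.R3
import Pool.Agent.Lib.MP_0cb87d_ag.HKI.R4
import Pool.Agent.Lib.MP_0cb87d_ag.HKI.R5
import Pool.Agent.Lib.MP_0cb87d_ag.HKI.R6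
import Pool.Agent.Lib.MP_0cb87d_ag.HKI.R7
import Pool.Agent.Lib.MP_0cb87d_ag.HKI.Q1
import Pool.Agent.Lib.MP_0cb87d_ag.HKI.Q2
import Pool.Agent.Lib.MP_0cb87d_ag.HKI.Q3
import Pool.Agent.Lib.MP_0cb87d_ag.HKI.Q4
import Pool.Agent.Lib.MP_0cb87d_ag.HKI.Z
import Pool.Agent.Lib.MP_0cb87d_ag.HKI.Bridge

/-! The integral theorem on hyperkähler manifolds, from the modules. -/

namespace Pool.Agent.Lib.MP0cb87d

theorem mainHKI : HKIntStatement := by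
  have hN2 : StN2 := stN2 stN1 stL1 stL2
  exact stZ mainHK (stM1 stC1) stN1 hN2 stL1 stL2 (stP3 (stP2 (stP1 stC1)) stN1 hN2) stR1
    (stR2 stL1) (stR4 stR3) stR5 (stR6 stN1) (stR7 stL1 stN1) (stQ2 stQ1) stQ3 stQ4

end Pool.Agent.Lib.MP0cb87d
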