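import Pool.Agent.Lib.MP_0cb87d_ag.HKI.Stmts

/-! A quasi-inverse of a Hodge map of transcendental lattices. -/

namespace Pool.Agent.Lib.MP0cb87d

open TensorProduct

namespace R6aux

/-- the projections of an internal direct sum -/
theorem exists_proj {W : Type} [AddCommGroup W] [Module ℂ W] (comp : ℤ → Submodule ℂ W)
    (h : DirectSum.IsInternal comp) :
    ∃ π : ℤ → W →ₗ[ℂ] W, (∀ k, ∀ x ∈ comp k, π k x = x) ∧
      (∀ k l, k ≠ l → ∀ x ∈ comp k, π l x = 0) := by
  classical
  letI := h.chooseDecomposition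
  refine ⟨fun k => (comp k).subtype ∘ₗ DirectSum.component ℂ ℤ (fun i => comp i) k ∘ₗ
    (DirectSum.decomposeLinearEquiv comp).toLinearMap, fun k x hx => ?_,
    fun k l hkl x hx => ?_⟩
  · exact DirectSum.decompose_of_mem_same comp hx
  · exact DirectSum.decompose_of_mem_ne comp hx hkl

theorem inclS_injective {V : Type} [AddCommGroup V] (S : Submodule ℤ V) :
    Function.Injective (inclS S) :=
  Module.Flat.lTensor_preserves_injective_linearMap (M := ℂ) S.subtype Subtype.val_injective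

end R6aux

open R6aux in
theorem stR6 (hN1 : StN1) : StR6 := by
  intro n n' N N' h h' φ hφ hinj ⟨m, hm, hsur⟩
  obtain ⟨σ, hσ, -⟩ := hN1 n N h
  choose ψ hψ using hsur
  let φ' : h'.trans →ₗ[ℤ] h.trans := (AddMonoidHom.mk' ψ fun a b => hinj (by
    rw [map_add, hψ, hψ, hψ, smul_add])).toIntLinearMap
  have h1 : ∀ t, φ (φ' t) = m • t := hψ
  have h2 : ∀ t, φ' (φ t) = m • t := fun t => hinj (by rw [h1, map_nsmul])
  have hm' : (m : ℂ) ≠ 0 := by exact_mod_cast hm.ne'
  have e1 : φ ∘ₗ φ' = (m : ℤ) • LinearMap.id := by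
    ext t
    simp [h1]
  have e2 : φ' ∘ₗ φ = (m : ℤ) • LinearMap.id := by
    ext t
    simp [h2]
  have c1 : ∀ z : ℂ ⊗[ℤ] h'.trans, φ.baseChange ℂ (φ'.baseChange ℂ z) = (m : ℂ) • z := by
    intro z
    rw [← LinearMap.comp_apply, ← LinearMap.baseChange_comp, e1, LinearMap.baseChange_smul]
    simp [Nat.cast_smul_eq_nsmul]
  have c2 : ∀ z : ℂ ⊗[ℤ] h.trans, φ'.baseChange ℂ (φ.baseChange ℂ z) = (m : ℂ) • z := by
    intro z
    rw [← LinearMap.comp_apply, ← LinearMap.baseChange_comp, e2, LinearMap.baseChange_smul]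
    simp [Nat.cast_smul_eq_nsmul]
  have c3 : ∀ z : ℂ ⊗[ℤ] h.trans, φ.baseChange ℂ z = 0 → z = 0 := by
    intro z hz
    have := c2 z
    rw [hz, map_zero] at this
    exact (smul_eq_zero.1 this.symm).resolve_left hm'
  refine ⟨m, φ', hm, ?_, h2, h1⟩
  intro k z hz
  obtain ⟨y, hy, hsum⟩ := hσ.graded (φ'.baseChange ℂ z)
  obtain ⟨ρ, r1, r2⟩ := exists_proj N'.comp N'.internal
  have hΦ : ∀ i, inclS h'.trans (φ.baseChange ℂ (y i)) ∈ N'.comp i := fun i => hφ i _ (hy i)
  have hmz : inclS h'.trans (φ.baseChange ℂ (φ'.baseChange ℂ z)) ∈ N'.comp k := by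
    rw [c1, map_smul]
    exact Submodule.smul_mem _ _ hz
  have hz0 : ∀ i, i ≠ k → y i = 0 := by
    intro i hik
    apply c3
    apply inclS_injective
    rw [map_zero]
    have h3 : ρ i (inclS h'.trans (φ.baseChange ℂ (φ'.baseChange ℂ z))) = 0 :=
      r2 k i (Ne.symm hik) _ hmz
    rw [← hsum, Finsupp.sum, map_sum, map_sum, map_sum] at h3
    by_cases hi : i ∈ y.support
    · rw [Finset.sum_eq_single i, r1 i _ (hΦ i)] at h3
      · exact h3
      · intro j _ hji
        exact r2 j i hji _ (hΦ j)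
      · intro h
        exact absurd hi h
    · rw [Finsupp.notMem_support_iff.1 hi]
      simp
  have hfin : φ'.baseChange ℂ z = y k := by
    rw [← hsum, Finsupp.sum]
    by_cases hk : k ∈ y.support
    · rw [Finset.sum_eq_single k]
      · intro j _ hj
        exact hz0 j hj
      · intro h
        exact absurd hk h
    · rw [Finsupp.notMem_support_iff.1 hk]
      exact Finset.sum_eq_zero fun j _ => by
        by_cases hj : j = k
        · rw [hj, Finsupp.notMem_support_iff.1 hk]
        · exact hz0 j hj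
  rw [hfin]
  exact hy k

end Pool.Agent.Lib.MP0cb87d
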